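import Pool.Agent.L0h92.Lech.EM

/-!
# Maximal ideals with the same asymptotic powers
-/

set_option autoImplicit false

namespace Pool.Agent.L0h92.Lech

open Module Ideal IsLocalRing

variable {K R : Type*} [Field K] [CommRing R] [Algebra K R]

/-- `I ≤ I'` and the powers of `I'` are contained in those of `I` up to a shift. -/
def Equi (I I' : Ideal R) : Prop := I ≤ I' ∧ ∃ c, ∀ s, I' ^ (s + c) ≤ I ^ s

lemma Equi.refl (I : Ideal R) : Equi I I := ⟨le_rfl, 0, fun _ => le_rfl⟩

lemma eq_of_lam_le {J J' : Ideal R} (h : J ≤ J') (hfin : lam K J ≠ ⊤)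
    (hle : lam K J ≤ lam K J') : J = J' := by
  by_contra hne
  obtain ⟨x, hx, hxJ⟩ := SetLike.exists_of_lt (lt_of_le_of_ne h hne)
  have h1 := lam_eq_add (K := K) J x
  have h2 : lam K J' ≤ lam K (J ⊔ span {x}) :=
    lam_anti (sup_le h (by rwa [span_singleton_le_iff_mem]))
  have h3 : lam K (col J x) ≠ 0 := by
    intro h0
    unfold lam at h0
    rw [Module.length_eq_zero_iff, Ideal.Quotient.subsingleton_iff] at h0
    apply hxJ
    have : (1 : R) ∈ col J x := by rw [h0]; trivial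
    rwa [mem_col, mul_one] at this
  have h4 : lam K J' + 1 ≤ lam K J := by
    rw [h1]
    exact add_le_add h2 (Order.one_le_iff_ne_zero.mpr h3)
  have h5 : lam K J' ≠ ⊤ := ne_top_of_le_ne_top hfin (lam_anti h)
  have h6 : lam K J' + 1 ≤ lam K J' := h4.trans hle
  exact absurd h6 (not_le.mpr (ENat.lt_add_one_iff h5 |>.mpr le_rfl))

lemma exists_max {I : Ideal R} (hI : lam K I ≠ ⊤) :
    ∃ I', Equi I I' ∧ ∀ I'', Equi I I'' → I' ≤ I'' → I'' = I' := by
  obtain ⟨I', hI', hmin⟩ := WellFounded.has_min (InvImage.wf (fun J : Ideal R => lam K J)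
    (wellFounded_lt : WellFounded ((· < ·) : ℕ∞ → ℕ∞ → Prop))) {J | Equi I J} ⟨I, Equi.refl I⟩
  refine ⟨I', hI', fun I'' h1 h2 => (eq_of_lam_le (K := K) h2 ?_ ?_).symm⟩
  · exact ne_top_of_le_ne_top hI (lam_anti hI'.1)
  · exact not_lt.mp (hmin I'' h1)

lemma pow_mul_le {I B : Ideal R} {z : R} (h : ∀ b ∈ B, z * b ∈ I * B) (s : ℕ) :
    (I ⊔ span {z}) ^ s * B ≤ I ^ s * B := by
  have h1 : (I ⊔ span {z}) * B ≤ I * B := by
    rw [Ideal.sup_mul, sup_le_iff]
    refine ⟨le_rfl, ?_⟩
    rw [Ideal.mul_le]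
    intro r hr b hb
    obtain ⟨c, rfl⟩ := Ideal.mem_span_singleton'.mp hr
    rw [mul_assoc]
    exact Ideal.mul_mem_left _ _ (h b hb)
  induction s with
  | zero => simp
  | succ s ih =>
    calc (I ⊔ span {z}) ^ (s + 1) * B = (I ⊔ span {z}) ^ s * ((I ⊔ span {z}) * B) := by
          rw [pow_succ, mul_assoc]
      _ ≤ (I ⊔ span {z}) ^ s * (I * B) := Ideal.mul_mono_right h1
      _ = I * ((I ⊔ span {z}) ^ s * B) := by ring
      _ ≤ I * (I ^ s * B) := Ideal.mul_mono_right ih
      _ = I ^ (s + 1) * B := by ring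

lemma finrank_ker_comp_subtype {Q P : Type*} [AddCommGroup Q] [Module K Q] [AddCommGroup P]
    [Module K P] (M : Q →ₗ[K] P) (U : Submodule K Q) :
    finrank K (LinearMap.ker (M ∘ₗ U.subtype)) =
      finrank K (LinearMap.ker M ⊓ U : Submodule K Q) := by
  rw [LinearMap.ker_comp, ← Submodule.finrank_map_subtype_eq, Submodule.map_comap_subtype,
    inf_comm]

variable [IsLocalRing R] {V : Submodule K R}

lemma finrank_ker_mulQ (A : Ideal R) [Module.Finite K (R ⧸ A)] (f : R) :
    finrank K (LinearMap.ker (mulQ (K := K) A f)) = finrank K (R ⧸ (A ⊔ span {f})) := by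
  have h1 := finrank_range_mulQ (K := K) A f
  have h2 := LinearMap.finrank_range_add_finrank_ker (mulQ (K := K) A f)
  omega

/-- For a maximal ideal `I'` with the same asymptotic powers as `I` and a general `x ∈ V` one has
`V (I' : x) ⊆ I'`. -/
lemma Good.closure_step [Infinite K] (hV : Good V) {I I' : Ideal R} (hfin : lam K I' ≠ ⊤)
    (hprop : I' ≠ ⊤) (hE : Equi I I') (hmax : ∀ I'', Equi I I'' → I' ≤ I'' → I'' = I')
    {x : R} (hx : x ∈ V) (hmin : ∀ y ∈ V, lam K (I' ⊔ span {x}) ≤ lam K (I' ⊔ span {y}))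
    {f : R} (hf : x * f ∈ I') {y : R} (hy : y ∈ V) : y * f ∈ I' := by
  have hQ : Module.Finite K (R ⧸ I') := finite_of_lam hfin
  set G : Set K := {t | t ≠ 0 ∧ lam K (I' ⊔ span {x + t • y}) ≤ lam K (I' ⊔ span {x})} with hG
  have hGc : Gᶜ.Finite := by
    refine ((hV.semicont I' x y).union (Set.finite_singleton 0)).subset ?_
    intro t ht
    by_contra h
    rw [Set.mem_union, not_or] at h
    exact ht ⟨fun h0 => h.2 h0, not_not.mp h.1⟩
  set B : Ideal R := ⨆ t ∈ G, col I' (x + t • y) with hB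
  have hcolB : ∀ t ∈ G, col I' (x + t • y) ≤ B := fun t ht => le_iSup₂_of_le t ht le_rfl
  obtain ⟨t₀, ht₀⟩ := hGc.infinite_compl.nonempty
  rw [compl_compl] at ht₀
  have hI'B : I' ≤ B := (le_col _ _).trans (hcolB t₀ ht₀)
  set q : R →ₗ[K] (R ⧸ I') := (Ideal.Quotient.mkₐ K I').toLinearMap with hq
  set U : Submodule K (R ⧸ I') := (B.restrictScalars K).map q with hU
  have hmk : ∀ t : K, Ideal.Quotient.mk I' (t • y) = t • Ideal.Quotient.mk I' y := fun t =>
    map_smul (Ideal.Quotient.mkₐ K I') t y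
  have hadd : ∀ t : K, mulQ (K := K) I' x + t • mulQ (K := K) I' y =
      mulQ (K := K) I' (x + t • y) := by
    intro t
    refine LinearMap.ext fun a => ?_
    change Ideal.Quotient.mk I' x * a + t • (Ideal.Quotient.mk I' y * a) =
      Ideal.Quotient.mk I' (x + t • y) * a
    rw [map_add, hmk, add_mul, smul_mul_assoc]
  have hkerU : ∀ t ∈ G, LinearMap.ker (mulQ (K := K) I' (x + t • y)) ≤ U := by
    intro t ht a ha
    obtain ⟨a, rfl⟩ := Ideal.Quotient.mk_surjective a
    refine ⟨a, hcolB t ht ?_, rfl⟩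
    rw [mem_col, ← Ideal.Quotient.eq_zero_iff_mem, map_mul]
    exact ha
  have hker : LinearMap.ker (mulQ (K := K) I' x) ≤ U := by
    have h1 := finite_rank_lt ((mulQ (K := K) I' x) ∘ₗ U.subtype)
      ((mulQ (K := K) I' y) ∘ₗ U.subtype)
    obtain ⟨t, ht⟩ := (h1.union hGc).infinite_compl.nonempty
    rw [Set.mem_compl_iff, Set.mem_union, not_or] at ht
    have htG : t ∈ G := not_not.mp ht.2
    have hr := not_not.mp ht.1
    have h2 : (mulQ (K := K) I' x) ∘ₗ U.subtype + t • (mulQ (K := K) I' y) ∘ₗ U.subtype =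
        (mulQ (K := K) I' (x + t • y)) ∘ₗ U.subtype := by
      rw [← hadd, LinearMap.add_comp, LinearMap.smul_comp]
    rw [h2] at hr
    have h3 := LinearMap.finrank_range_add_finrank_ker ((mulQ (K := K) I' x) ∘ₗ U.subtype)
    have h4 := LinearMap.finrank_range_add_finrank_ker
      ((mulQ (K := K) I' (x + t • y)) ∘ₗ U.subtype)
    rw [finrank_ker_comp_subtype] at h3 h4
    rw [inf_eq_left.mpr (hkerU t htG), finrank_ker_mulQ] at h4
    have hf1 : Module.Finite K (R ⧸ (I' ⊔ span {x + t • y})) :=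
      finite_of_lam (ne_top_of_le_ne_top hfin (lam_anti le_sup_left))
    have hf2 : Module.Finite K (R ⧸ (I' ⊔ span {x})) :=
      finite_of_lam (ne_top_of_le_ne_top hfin (lam_anti le_sup_left))
    have h5 : finrank K (R ⧸ (I' ⊔ span {x})) ≤ finrank K (R ⧸ (I' ⊔ span {x + t • y})) := by
      have := hmin (x + t • y) (add_mem hx (V.smul_mem _ hy))
      rw [lam_eq_finrank, lam_eq_finrank] at this
      exact_mod_cast this
    rw [← finrank_ker_mulQ] at h5
    have h6 : LinearMap.ker (mulQ (K := K) I' x) ⊓ U = LinearMap.ker (mulQ (K := K) I' x) :=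
      Submodule.eq_of_le_of_finrank_le inf_le_left (by omega)
    rw [← h6]
    exact inf_le_right
  have hfB : f ∈ B := by
    have h1 : Ideal.Quotient.mk I' f ∈ LinearMap.ker (mulQ (K := K) I' x) := by
      change Ideal.Quotient.mk I' x * Ideal.Quotient.mk I' f = 0
      rw [← map_mul, Ideal.Quotient.eq_zero_iff_mem]
      exact hf
    obtain ⟨b, hb, hb2⟩ := hker h1
    have h2 : Ideal.Quotient.mk I' b = Ideal.Quotient.mk I' f := hb2
    rw [Ideal.Quotient.eq] at h2
    have : f = b - (b - f) := by ring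
    rw [this]
    exact sub_mem hb (hI'B h2)
  have hz : ∀ b ∈ B, (y * f) * b ∈ I' * B := by
    have h0 : B ≤ col (I' * B) (y * f) := by
      conv_lhs => rw [hB]
      refine iSup₂_le fun t ht b hb => ?_
      rw [mem_col]
      have h1 : (x + t • y) * b * f ∈ I' * B := Ideal.mul_mem_mul hb hfB
      have h2 : x * f * b ∈ I' * B := Ideal.mul_mem_mul hf (hcolB t ht hb)
      have h3 : y * f * b = t⁻¹ • ((x + t • y) * b * f - x * f * b) := by
        have : (x + t • y) * b * f - x * f * b = t • (y * f * b) := by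
          simp only [Algebra.smul_def]
          ring
        rw [this, smul_smul, inv_mul_cancel₀ ht.1, one_smul]
      rw [h3, Algebra.smul_def]
      exact Ideal.mul_mem_left _ _ (sub_mem h1 h2)
    exact fun b hb => h0 hb
  obtain ⟨n, hn⟩ := exists_pow_le hfin
  have hI'm : I' ≤ maximalIdeal R := le_maximalIdeal hprop
  have hym : y ∈ maximalIdeal R := by
    rw [← hV.span_eq]; exact Ideal.subset_span hy
  have hIz : I' ⊔ span {y * f} ≤ maximalIdeal R := by
    refine sup_le hI'm ?_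
    rw [span_singleton_le_iff_mem]
    exact Ideal.mul_mem_right _ _ hym
  have hE2 : Equi I (I' ⊔ span {y * f}) := by
    obtain ⟨hII', c, hc⟩ := hE
    refine ⟨hII'.trans le_sup_left, c + n, fun s => ?_⟩
    calc (I' ⊔ span {y * f}) ^ (s + (c + n))
        = (I' ⊔ span {y * f}) ^ (s + c) * (I' ⊔ span {y * f}) ^ n := by
          rw [← pow_add, add_assoc]
      _ ≤ (I' ⊔ span {y * f}) ^ (s + c) * B :=
          Ideal.mul_mono_right ((Ideal.pow_right_mono hIz n).trans (hn.trans hI'B))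
      _ ≤ I' ^ (s + c) * B := pow_mul_le hz _
      _ ≤ I' ^ (s + c) := Ideal.mul_le_left
      _ ≤ I ^ s := hc s
  have h7 := hmax _ hE2 le_sup_left
  rw [← h7]
  exact Ideal.mem_sup_right (Ideal.mem_span_singleton_self _)

end Pool.Agent.L0h92.Lech
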