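import Pool.Agent.L0h92.Lech.Loc

/-!
# Minimal colengths

For a multiset `L` of subspaces `U_1, …, U_n` of `R`, `EM L J` is the minimum of
`dim R / (J + (f_1, …, f_n))` over all `f_i ∈ U_i`.
-/

set_option autoImplicit false

namespace Pool.Agent.L0h92.Lech

open Module Ideal IsLocalRing

variable {K R : Type*} [Field K] [CommRing R] [Algebra K R]

/-- one step of the minimisation -/
noncomputable def op (U : Submodule K R) (φ : Ideal R → ℕ∞) (J : Ideal R) : ℕ∞ :=
  ⨅ f : U, φ (J ⊔ span {(f : R)})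

instance : LeftCommutative (op (K := K) (R := R)) where
  left_comm U W φ := by
    funext J
    unfold op
    rw [iInf_comm]
    refine iInf_congr fun f => iInf_congr fun g => ?_
    rw [sup_assoc, sup_assoc, sup_comm (span {(f : R)})]

/-- The minimum of `dim R / (J + (f_1, …, f_n))` over `f_i ∈ U_i`, where `U_1, …, U_n` are the
members of `L`. -/
noncomputable def EM (L : Multiset (Submodule K R)) (J : Ideal R) : ℕ∞ := L.foldr op (lam K) J

variable {L : Multiset (Submodule K R)} {U W : Submodule K R} {J J' : Ideal R}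

lemma EM_zero (J : Ideal R) : EM (0 : Multiset (Submodule K R)) J = lam K J := rfl

lemma EM_cons (U : Submodule K R) (L : Multiset (Submodule K R)) (J : Ideal R) :
    EM (U ::ₘ L) J = ⨅ f : U, EM L (J ⊔ span {(f : R)}) := by
  unfold EM
  rw [Multiset.foldr_cons]
  rfl

lemma EM_cons_le {f : R} (hf : f ∈ U) : EM (U ::ₘ L) J ≤ EM L (J ⊔ span {f}) := by
  rw [EM_cons]
  exact iInf_le (fun f : U => EM L (J ⊔ span {(f : R)})) ⟨f, hf⟩

lemma exists_EM_cons (U : Submodule K R) (L : Multiset (Submodule K R)) (J : Ideal R) :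
    ∃ f ∈ U, EM (U ::ₘ L) J = EM L (J ⊔ span {f}) := by
  obtain ⟨f, hf⟩ := ENat.exists_eq_iInf (fun f : U => EM L (J ⊔ span {(f : R)}))
  exact ⟨f, f.2, by rw [EM_cons, hf]⟩

lemma EM_anti (L : Multiset (Submodule K R)) (h : J ≤ J') : EM L J' ≤ EM L J := by
  induction L using Multiset.induction_on generalizing J J' with
  | empty => exact lam_anti h
  | cons U L ih =>
    rw [EM_cons, EM_cons]
    exact iInf_mono fun f => ih (sup_le_sup_right h _)

lemma EM_top (L : Multiset (Submodule K R)) : EM L (⊤ : Ideal R) = 0 := by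
  induction L using Multiset.induction_on with
  | empty => exact lam_top
  | cons U L ih =>
    apply le_antisymm _ bot_le
    refine (EM_cons_le (zero_mem U)).trans ?_
    rw [top_sup_eq, ih]
    exact le_rfl

lemma EM_slot_mod (h : ∀ f ∈ W, ∃ g ∈ U, f - g ∈ J) : EM (U ::ₘ L) J ≤ EM (W ::ₘ L) J := by
  obtain ⟨f, hf, h1⟩ := exists_EM_cons W L J
  obtain ⟨g, hg, h2⟩ := h f hf
  rw [h1]
  refine (EM_cons_le hg).trans (EM_anti _ ?_)
  refine sup_le le_sup_left ?_
  rw [span_singleton_le_iff_mem]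
  have : f = (f - g) + g := by ring
  rw [this]
  exact add_mem (Ideal.mem_sup_left h2) (Ideal.mem_sup_right (Ideal.mem_span_singleton_self _))

lemma EM_slot_mono (h : W ≤ U) : EM (U ::ₘ L) J ≤ EM (W ::ₘ L) J :=
  EM_slot_mod fun f hf => ⟨f, h hf, by simp⟩

lemma EM_cons_congr {L' : Multiset (Submodule K R)} (h : ∀ J, EM L J ≤ EM L' J)
    (U : Submodule K R) (J : Ideal R) : EM (U ::ₘ L) J ≤ EM (U ::ₘ L') J := by
  rw [EM_cons, EM_cons]
  exact iInf_mono fun f => h _

lemma EM_attained (L : Multiset (Submodule K R)) (J : Ideal R) :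
    ∃ F : Ideal R, EM L J = lam K (J ⊔ F) ∧ ∀ J', EM L J' ≤ lam K (J' ⊔ F) := by
  induction L using Multiset.induction_on generalizing J with
  | empty => exact ⟨⊥, by simp [EM_zero], fun J' => by simp [EM_zero]⟩
  | cons U L ih =>
    obtain ⟨f, hf, h1⟩ := exists_EM_cons U L J
    obtain ⟨F, h2, h3⟩ := ih (J ⊔ span {f})
    refine ⟨span {f} ⊔ F, ?_, ?_⟩
    · rw [h1, h2, sup_assoc]
    · intro J'
      refine (EM_cons_le hf).trans ?_
      rw [← sup_assoc]
      exact h3 _

variable [IsLocalRing R] {V : Submodule K R}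

lemma Good.semicont_EM (hV : Good V) (L : Multiset (Submodule K R)) (J : Ideal R) (f g : R) :
    {t : K | ¬ EM L (J ⊔ span {f + t • g}) ≤ EM L (J ⊔ span {f})}.Finite := by
  obtain ⟨F, h1, h2⟩ := EM_attained L (J ⊔ span {f})
  refine (hV.semicont (J ⊔ F) f g).subset ?_
  intro t ht h
  apply ht
  refine (h2 _).trans ?_
  have e : ∀ x : R, J ⊔ span {x} ⊔ F = J ⊔ F ⊔ span {x} := fun x => sup_right_comm _ _ _
  rw [h1, e, e]
  exact h

lemma Good.exists_common [Infinite K] (hV : Good V) (L : Multiset (Submodule K R))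
    (J₁ J₂ : Ideal R) (f g : R) : ∃ t : K,
      EM L (J₁ ⊔ span {f + t • (g - f)}) ≤ EM L (J₁ ⊔ span {f}) ∧
      EM L (J₂ ⊔ span {f + t • (g - f)}) ≤ EM L (J₂ ⊔ span {g}) := by
  have h1 := hV.semicont_EM L J₁ f (g - f)
  have h2 := hV.semicont_EM L J₂ g (f - g)
  have h3 := h2.image (fun t : K => 1 - t)
  obtain ⟨t, ht⟩ := (h1.union h3).infinite_compl.nonempty
  rw [Set.mem_compl_iff, Set.mem_union, not_or] at ht
  refine ⟨t, not_not.mp ht.1, ?_⟩
  by_contra h4
  apply ht.2
  refine ⟨1 - t, ?_, by simp⟩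
  intro h5
  apply h4
  have : g + (1 - t) • (f - g) = f + t • (g - f) := by
    rw [sub_smul, one_smul, smul_sub, smul_sub]
    abel
  rwa [this] at h5

lemma Good.EM_mul_le [Infinite K] (hV : Good V) (L : Multiset (Submodule K R)) (J : Ideal R)
    (a b : R) : EM L (J ⊔ span {a * b}) ≤ EM L (J ⊔ span {a}) + EM L (J ⊔ span {b}) := by
  induction L using Multiset.induction_on generalizing J with
  | empty => exact lam_mul_le J a b
  | cons U L ih =>
    obtain ⟨f, hf, h1⟩ := exists_EM_cons U L (J ⊔ span {a})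
    obtain ⟨g, hg, h2⟩ := exists_EM_cons U L (J ⊔ span {b})
    obtain ⟨t, h3, h4⟩ := hV.exists_common L (J ⊔ span {a}) (J ⊔ span {b}) f g
    rw [h1, h2]
    refine le_trans ?_ (add_le_add h3 h4)
    have hm : f + t • (g - f) ∈ U := add_mem hf (U.smul_mem _ (sub_mem hg hf))
    refine (EM_cons_le hm).trans ?_
    have h5 := ih (J ⊔ span {f + t • (g - f)})
    rw [sup_assoc, sup_comm (span {a * b}), sup_assoc J (span {a}), sup_comm (span {a}),
      sup_assoc J (span {b}), sup_comm (span {b}), ← sup_assoc, ← sup_assoc, ← sup_assoc]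
    exact h5

lemma Good.EM_pow_le [Infinite K] (hV : Good V) (L : Multiset (Submodule K R)) (J : Ideal R)
    (a : R) (n : ℕ) : EM L (J ⊔ span {a ^ n}) ≤ n * EM L (J ⊔ span {a}) := by
  induction n with
  | zero => simp [EM_top]
  | succ n ih =>
    rw [pow_succ]
    refine le_trans (hV.EM_mul_le _ _ _ _) ?_
    rw [Nat.cast_add, Nat.cast_one, add_mul, one_mul]
    gcongr

lemma Good.EM_slot [Infinite K] (hV : Good V) {v : R} {s : ℕ} (h : ∀ g ∈ W, v ^ s * g ∈ U)
    (L : Multiset (Submodule K R)) (J : Ideal R) :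
    EM (U ::ₘ L) J ≤ s * EM L (J ⊔ span {v}) + EM (W ::ₘ L) J := by
  obtain ⟨g, hg, h1⟩ := exists_EM_cons W L J
  rw [h1]
  refine (EM_cons_le (h g hg)).trans ?_
  refine (hV.EM_mul_le L J _ _).trans ?_
  gcongr
  exact hV.EM_pow_le L J v s

end Pool.Agent.L0h92.Lech
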