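import Pool.Agent.L0h92.Lech.PS

/-!
# The refinement of Lech's inequality
-/

set_option autoImplicit false

namespace Pool.Agent.L0h92.Lech

open Module Ideal IsLocalRing

section General

variable {K R : Type*} [Field K] [CommRing R] [Algebra K R]

lemma exists_list (m : ℕ) (A : Submodule K R) (L : Multiset (Submodule K R)) (J : Ideal R) :
    ∃ F : List R, F.length = m ∧ (∀ f ∈ F, f ∈ A) ∧
      EM (Multiset.replicate m A + L) J = EM L (J ⊔ Ideal.ofList F) := by
  induction m generalizing J with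
  | zero => exact ⟨[], rfl, by simp, by simp⟩
  | succ m ih =>
    rw [Multiset.replicate_succ, Multiset.cons_add]
    obtain ⟨f, hf, h1⟩ := exists_EM_cons A (Multiset.replicate m A + L) J
    obtain ⟨F, h2, h3, h4⟩ := ih (J ⊔ span {f})
    refine ⟨f :: F, by rw [List.length_cons, h2], ?_, ?_⟩
    · intro g hg
      rcases List.mem_cons.mp hg with rfl | hg
      · exact hf
      · exact h3 g hg
    · rw [h1, h4, Ideal.ofList_cons, sup_assoc]

lemma lengthR_le_lam (J : Ideal R) : Module.length R (R ⧸ J) ≤ lam K J := by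
  unfold lam
  rw [← WithBot.coe_le_coe, Module.coe_length, Module.coe_length]
  exact Order.krullDim_le_of_orderEmbedding (Submodule.restrictScalarsEmbedding K R (R ⧸ J))

lemma lengthR_eq_add (J : Ideal R) (x : R) :
    Module.length R (R ⧸ J) =
      Module.length R (R ⧸ (J ⊔ span {x})) + Module.length R (R ⧸ col J x) := by
  rw [add_comm]
  refine Module.length_eq_add_of_exact (Submodule.mapQ (col J x) J (LinearMap.mulLeft R x) le_rfl)
    (Submodule.mapQ J (J ⊔ span {x}) LinearMap.id le_sup_left) ?_ ?_ ?_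
  · rw [injective_iff_map_eq_zero]
    intro a ha
    obtain ⟨a, rfl⟩ := Ideal.Quotient.mk_surjective a
    have : Ideal.Quotient.mk J (x * a) = 0 := ha
    rw [Ideal.Quotient.eq_zero_iff_mem] at this ⊢
    exact this
  · intro a
    obtain ⟨a, rfl⟩ := Ideal.Quotient.mk_surjective a
    exact ⟨Ideal.Quotient.mk _ a, rfl⟩
  · intro a
    obtain ⟨a, rfl⟩ := Ideal.Quotient.mk_surjective a
    constructor
    · intro h
      have h1 : Ideal.Quotient.mk (J ⊔ span {x}) a = 0 := h
      rw [Ideal.Quotient.eq_zero_iff_mem, Submodule.mem_sup] at h1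
      obtain ⟨j, hj, z, hz, rfl⟩ := h1
      obtain ⟨c, rfl⟩ := Ideal.mem_span_singleton'.mp hz
      refine ⟨Ideal.Quotient.mk _ c, ?_⟩
      change Ideal.Quotient.mk J (x * c) = _
      rw [Ideal.Quotient.eq]
      have : x * c - (j + c * x) = -j := by ring
      rw [this]
      exact J.neg_mem hj
    · rintro ⟨c, hc⟩
      obtain ⟨c, rfl⟩ := Ideal.Quotient.mk_surjective c
      have h1 : Ideal.Quotient.mk J (x * c) = Ideal.Quotient.mk J a := hc
      rw [Ideal.Quotient.eq] at h1
      change Ideal.Quotient.mk (J ⊔ span {x}) a = 0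
      rw [Ideal.Quotient.eq_zero_iff_mem]
      have : a = -(x * c - a) + c * x := by ring
      rw [this]
      exact add_mem (Ideal.mem_sup_left (J.neg_mem h1))
        (Ideal.mem_sup_right (Ideal.mem_span_singleton'.mpr ⟨c, rfl⟩))

variable [IsLocalRing R] {V : Submodule K R}

lemma exists_socle {A : Ideal R} (hA : lam K A ≠ ⊤) (hAt : A ≠ ⊤) :
    ∃ x, x ∉ A ∧ col A x = maximalIdeal R := by
  classical
  have hex := exists_pow_le hA
  have hn := Nat.find_spec hex
  have hmin := @Nat.find_min _ _ hex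
  obtain ⟨k, hk⟩ : ∃ k, Nat.find hex = k + 1 := by
    refine ⟨Nat.find hex - 1, ?_⟩
    have : Nat.find hex ≠ 0 := by
      intro h0
      rw [h0, pow_zero, Ideal.one_eq_top] at hn
      exact hAt (top_le_iff.mp hn)
    omega
  rw [hk] at hn
  have hk2 : ¬ maximalIdeal R ^ k ≤ A := hmin (by omega)
  obtain ⟨x, hxk, hxA⟩ := SetLike.not_le_iff_exists.mp hk2
  refine ⟨x, hxA, ?_⟩
  symm
  apply (maximalIdeal.isMaximal R).eq_of_le
  · intro h
    apply hxA
    have : (1 : R) ∈ col A x := by rw [h]; trivial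
    rw [mem_col, mul_one] at this
    exact this
  · intro r hr
    rw [mem_col, mul_comm]
    apply hn
    rw [pow_succ']
    exact Ideal.mul_mem_mul hr hxk

lemma Good.lam_le_lengthR (hV : Good V) (v : ℕ) : ∀ A : Ideal R, lam K A ≤ v →
    lam K A ≤ Module.length R (R ⧸ A) := by
  induction v with
  | zero =>
    intro A hA
    rw [le_antisymm hA bot_le]
    exact bot_le
  | succ v ih =>
    intro A hA
    by_cases hAt : A = ⊤
    · rw [hAt, lam_top]; exact bot_le
    obtain ⟨x, hxA, hcol⟩ := exists_socle (ne_top_of_le_ne_top (ENat.natCast_ne_top _) hA) hAt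
    have h1 := lam_eq_add (K := K) A x
    rw [hcol, hV.lam_max] at h1
    have h2 : lam K (A ⊔ span {x}) ≤ v := by
      have h3 : lam K (A ⊔ span {x}) + 1 ≤ (v : ℕ∞) + 1 := by rw [← h1]; exact_mod_cast hA
      exact (ENat.add_le_add_iff_right (by simp)).mp h3
    rw [h1, lengthR_eq_add A x, hcol]
    refine add_le_add (ih _ h2) ?_
    have : Nontrivial (R ⧸ maximalIdeal R) :=
      Ideal.Quotient.nontrivial_iff.mpr (maximalIdeal.isMaximal R).ne_top
    exact Order.one_le_iff_pos.mpr Module.length_pos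

end General

section Limit

lemma tendsto_ratio (m : ℕ) :
    Filter.Tendsto (fun u : ℕ => ((u + m : ℕ) : ℝ) / ((u + 1 : ℕ) : ℝ)) Filter.atTop (nhds 1) := by
  have h1 : Filter.Tendsto (fun u : ℕ => 1 + ((m : ℝ) - 1) * (1 / ((u : ℝ) + 1))) Filter.atTop
      (nhds (1 + ((m : ℝ) - 1) * 0)) :=
    tendsto_const_nhds.add (tendsto_const_nhds.mul tendsto_one_div_add_atTop_nhds_zero_nat)
  rw [mul_zero, add_zero] at h1
  refine h1.congr fun u => ?_
  have : (0 : ℝ) < (u : ℝ) + 1 := by positivity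
  push_cast
  field_simp
  ring

lemma limit_le {g : ℕ → ℕ} {m s v : ℕ} {e : ℝ} (hs : 0 < s)
    (hg : ∀ u, g (s * (u + 1)) ≤ (u + m).choose m * v)
    (he : Filter.Tendsto (fun n : ℕ => ((m.factorial : ℝ) * (g n : ℝ)) / (n : ℝ) ^ m)
      Filter.atTop (nhds e)) : e ≤ v / (s : ℝ) ^ m := by
  have h1 : Filter.Tendsto (fun u : ℕ => s * (u + 1)) Filter.atTop Filter.atTop := by
    refine Filter.tendsto_atTop_mono (fun u => ?_) Filter.tendsto_id
    simp only [id]
    nlinarith
  have h2 := he.comp h1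
  have h3 : Filter.Tendsto (fun u : ℕ => (((u + m : ℕ) : ℝ) / ((u + 1 : ℕ) : ℝ)) ^ m *
      (v / (s : ℝ) ^ m)) Filter.atTop (nhds (v / (s : ℝ) ^ m)) := by
    have := ((tendsto_ratio m).pow m).mul_const ((v : ℝ) / (s : ℝ) ^ m)
    rwa [one_pow, one_mul] at this
  refine le_of_tendsto_of_tendsto' h2 h3 fun u => ?_
  have hsR : (0 : ℝ) < s := by exact_mod_cast hs
  have huR : (0 : ℝ) < ((u + 1 : ℕ) : ℝ) := by positivity
  have h4 : m.factorial * g (s * (u + 1)) ≤ (u + m) ^ m * v := by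
    calc m.factorial * g (s * (u + 1)) ≤ m.factorial * ((u + m).choose m * v) :=
          Nat.mul_le_mul_left _ (hg u)
      _ = (u + 1).ascFactorial m * v := by
          rw [Nat.ascFactorial_eq_factorial_mul_choose]
          ring
      _ ≤ (u + m) ^ m * v := Nat.mul_le_mul_right _ (Nat.ascFactorial_le_pow_add u m)
  have h5 : (m.factorial : ℝ) * (g (s * (u + 1)) : ℝ) ≤ ((u + m : ℕ) : ℝ) ^ m * v := by
    exact_mod_cast h4
  rw [Function.comp_apply]
  calc (m.factorial : ℝ) * (g (s * (u + 1)) : ℝ) / ((s * (u + 1) : ℕ) : ℝ) ^ m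
      ≤ (((u + m : ℕ) : ℝ) ^ m * v) / ((s * (u + 1) : ℕ) : ℝ) ^ m := by gcongr
    _ = _ := by
      rw [Nat.cast_mul, mul_pow, div_pow]
      field_simp

end Limit

section Assembly

variable {k : Type*} [Field k] {d : ℕ}

lemma exists_coeffs {f : MvPowerSeries (Fin (d + 1)) k} (hf : f ∈ VV k (d + 1)) :
    ∃ a : Fin (d + 1) → k, f = ∑ t, a t • MvPowerSeries.X t := by
  unfold VV at hf
  obtain ⟨a, ha⟩ := (Submodule.mem_span_range_iff_exists_fun k).mp hf
  exact ⟨a, ha.symm⟩

lemma exists_coords {L : List (MvPowerSeries (Fin (d + 1)) k)} {i : ℕ} (hi : i ≤ d)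
    (hL : L.length = i) (hV : ∀ f ∈ L, f ∈ VV k (d + 1)) :
    ∃ c : Fin d × Fin (d + 1) → k, Ideal.ofList L ≤
      DD (MvPowerSeries.X : Fin (d + 1) → MvPowerSeries (Fin (d + 1)) k)
        (Finset.univ.filter fun j : Fin d => j.val < i) c := by
  classical
  have h1 : ∀ j : Fin L.length, ∃ a : Fin (d + 1) → k, L.get j = ∑ t, a t • MvPowerSeries.X t :=
    fun j => exists_coeffs (hV _ (List.get_mem _ _))
  choose a ha using h1
  refine ⟨fun p => if h : p.1.val < L.length then a ⟨p.1.val, h⟩ p.2 else 0, ?_⟩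
  unfold Ideal.ofList
  rw [Ideal.span_le]
  intro f hf
  obtain ⟨j, rfl⟩ := List.get_of_mem hf
  have hj := j.2
  have hjd : j.val < d := by omega
  refine Ideal.subset_span ⟨⟨j.val, hjd⟩, ?_⟩
  unfold lin
  rw [if_pos (by
    rw [Finset.mem_filter]
    exact ⟨Finset.mem_univ _, by simpa [hL] using hj⟩), ha j]
  refine Finset.sum_congr rfl fun t _ => ?_
  dsimp only
  rw [dif_pos hj]

theorem final [Infinite k] (I : Ideal (MvPowerSeries (Fin (d + 1)) k))
    (hI : I.radical = Ideal.span (Set.range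
      (MvPowerSeries.X : Fin (d + 1) → MvPowerSeries (Fin (d + 1)) k))) :
    ∃ P : MvPolynomial (Fin d × Fin (d + 1)) k, P ≠ 0 ∧
      ∀ c : Fin d → Fin (d + 1) → k, MvPolynomial.eval (fun p => c p.1 p.2) P ≠ 0 →
        ∀ e : Fin d → ℝ,
          (∀ i : Fin d, Filter.Tendsto
            (fun n : ℕ => ((Nat.factorial (d + 1 - i.val) : ℝ) *
              ((Module.length (MvPowerSeries (Fin (d + 1)) k)
                (MvPowerSeries (Fin (d + 1)) k ⧸
                  (I ^ n ⊔ Ideal.span {f : MvPowerSeries (Fin (d + 1)) k |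
                    ∃ j : Fin d, j.val < i.val ∧
                      f = ∑ t : Fin (d + 1), c j t •
                        (MvPowerSeries.X t : MvPowerSeries (Fin (d + 1)) k)}))).toNat : ℝ))
              / (n : ℝ) ^ (d + 1 - i.val))
            Filter.atTop (nhds (e i))) →
          ∑ i : Fin d, ((ascPochhammer ℕ (d + 1)).coeff (d + 1 - i.val) : ℝ) * e i
            ≤ (Nat.factorial (d + 1) : ℝ) *
              ((Module.length (MvPowerSeries (Fin (d + 1)) k)
                (MvPowerSeries (Fin (d + 1)) k ⧸ I)).toNat : ℝ) := by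
  classical
  have hV := good_VV (k := k) (n := d + 1)
  set V := VV k (d + 1) with hVdef
  have hIm : I ≤ maximalIdeal (MvPowerSeries (Fin (d + 1)) k) := by
    rw [max_eq, ← hI]
    exact Ideal.le_radical
  have hIt : I ≠ ⊤ := by
    rintro rfl
    exact (maximalIdeal.isMaximal (MvPowerSeries (Fin (d + 1)) k)).ne_top (top_le_iff.mp hIm)
  obtain ⟨a, ha⟩ : ∃ a, maximalIdeal (MvPowerSeries (Fin (d + 1)) k) ^ a ≤ I := by
    refine Ideal.exists_pow_le_of_le_radical_of_fg ?_ ?_
    · rw [hI, max_eq]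
    · have := hV.fg 1
      rwa [pow_one] at this
  have hfin : lam k I ≠ ⊤ := ne_top_of_le_ne_top (hV.lam_pow_ne_top a) (lam_anti ha)
  have hmain := hV.main (d + 1) ⊥ dim_VV I bot_le hIt hfin (1 / 2) (by norm_num)
  obtain ⟨s, hs, hs0⟩ := (hmain.and (Filter.eventually_gt_atTop 0)).exists
  have hsR : (0 : ℝ) < s := by exact_mod_cast hs0
  -- the numbers
  set E : ℕ → ℕ∞ := fun m => EM (Multiset.replicate m (Pw k I s) +
    Multiset.replicate (d + 1 - m) V) ⊥ with hE
  have hEfin : ∀ m ≤ d + 1, E m ≠ ⊤ := by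
    intro m hm
    refine hV.EM_ne_top _ _ ?_ ?_
    · intro U hU
      rcases Multiset.mem_add.mp hU with hU | hU
      · rw [Multiset.eq_of_mem_replicate hU]
        refine ⟨a * s, fun x hx => ?_⟩
        rw [mem_Pw, pow_mul]
        exact Ideal.pow_mem_pow (ha (Ideal.pow_mem_pow (hV.sub_max hx) a)) s
      · rw [Multiset.eq_of_mem_replicate hU]; exact ⟨1, fun x hx => by rwa [pow_one]⟩
    · rw [Multiset.card_add, Multiset.card_replicate, Multiset.card_replicate,
        Nat.add_sub_cancel' hm]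
      exact dim_VV
  have hlist : ∀ m ≤ d + 1, ∃ F L : List (MvPowerSeries (Fin (d + 1)) k), F.length = m ∧
      (∀ f ∈ F, f ∈ I ^ s) ∧ L.length = d + 1 - m ∧ (∀ f ∈ L, f ∈ V) ∧
      E m = lam k (Ideal.ofList F ⊔ Ideal.ofList L) := by
    intro m hm
    obtain ⟨F, h1, h2, h3⟩ := exists_list m (Pw k I s) (Multiset.replicate (d + 1 - m) V) ⊥
    obtain ⟨L, h4, h5, h6⟩ := exists_list (d + 1 - m) V 0 (⊥ ⊔ Ideal.ofList F)
    refine ⟨F, L, h1, h2, h4, h5, ?_⟩
    rw [hE]
    simp only
    rw [h3]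
    rw [add_zero] at h6
    rw [h6, EM_zero, bot_sup_eq]
  -- the term of index one
  have hone : (1 : ℝ) ≤ (cc (d + 1) 1 : ℝ) * ((E 1).toNat / (s : ℝ) ^ 1) := by
    obtain ⟨F, L, h1, h2, h3, h4, h5⟩ := hlist 1 (by omega)
    obtain ⟨f, rfl⟩ := List.length_eq_one_iff.mp h1
    have h6 : (s : ℕ∞) ≤ E 1 := by
      rw [h5, Ideal.ofList_singleton]
      refine le_lam_of_list (by omega) h4 ?_
      exact Ideal.pow_right_mono hIm s (h2 f (List.mem_singleton.mpr rfl))
    have h7 : (s : ℝ) ≤ (E 1).toNat := by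
      have := ENat.toNat_le_toNat h6 (hEfin 1 (by omega))
      rw [ENat.toNat_natCast] at this
      exact_mod_cast this
    have h8 : (1 : ℝ) ≤ (cc (d + 1) 1 : ℝ) := by exact_mod_cast cc_one_pos (d + 1) (by omega)
    have h9 : (1 : ℝ) ≤ (E 1).toNat / (s : ℝ) ^ 1 := by
      rw [pow_one, one_le_div hsR]
      exact h7
    nlinarith
  -- the polynomials
  have hpoly : ∀ i : Fin d, ∃ P : MvPolynomial (Fin d × Fin (d + 1)) k, P ≠ 0 ∧
      ∃ F : List (MvPowerSeries (Fin (d + 1)) k), F.length = d + 1 - i.val ∧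
        (∀ f ∈ F, f ∈ I ^ s) ∧
        ∀ c, MvPolynomial.eval c P ≠ 0 → lam k (Ideal.ofList F ⊔
          DD (MvPowerSeries.X : Fin (d + 1) → MvPowerSeries (Fin (d + 1)) k)
            (Finset.univ.filter fun j : Fin d => j.val < i.val) c) ≤
              (E (d + 1 - i.val)).toNat := by
    intro i
    obtain ⟨F, L, h1, h2, h3, h4, h5⟩ := hlist (d + 1 - i.val) (Nat.sub_le _ _)
    have h6 : L.length = i.val := by
      have := i.2
      omega
    obtain ⟨c₀, hc₀⟩ := exists_coords (k := k) (d := d) i.2.le h6 h4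
    obtain ⟨P, hP, hPc⟩ := hV.exists_poly_lam (MvPowerSeries.X : Fin (d + 1) →
      MvPowerSeries (Fin (d + 1)) k) (Ideal.ofList F)
      (Finset.univ.filter fun j : Fin d => j.val < i.val) c₀ (E (d + 1 - i.val)).toNat (by
        rw [ENat.natCast_toNat (hEfin _ (Nat.sub_le _ _)), h5]
        exact lam_anti (sup_le_sup_left hc₀ _))
    exact ⟨P, hP, F, h1, h2, hPc⟩
  choose P hP0 F hFlen hFI hPc using hpoly
  refine ⟨∏ i, P i, Finset.prod_ne_zero_iff.mpr fun i _ => hP0 i, ?_⟩
  intro c hc e he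
  rw [map_prod, Finset.prod_ne_zero_iff] at hc
  -- the bound for the multiplicities
  have hei : ∀ i : Fin d, e i ≤ (E (d + 1 - i.val)).toNat / (s : ℝ) ^ (d + 1 - i.val) := by
    intro i
    refine limit_le hs0 (fun u => ?_) (he i)
    have h1 := hPc i (fun p => c p.1 p.2) (hc i (Finset.mem_univ _))
    apply ENat.toNat_le_of_le_natCast
    refine (lengthR_le_lam (K := k) _).trans ?_
    have h2 := lam_ofList_pow_le (K := k) (F i) u
      (DD (MvPowerSeries.X : Fin (d + 1) → MvPowerSeries (Fin (d + 1)) k)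
            (Finset.univ.filter fun j : Fin d => j.val < i.val) (fun p => c p.1 p.2))
    rw [hFlen i, sup_comm _ (Ideal.ofList (F i))] at h2
    have h3 : DD (MvPowerSeries.X : Fin (d + 1) → MvPowerSeries (Fin (d + 1)) k)
            (Finset.univ.filter fun j : Fin d => j.val < i.val) (fun p => c p.1 p.2) ≤
        Ideal.span {f : MvPowerSeries (Fin (d + 1)) k |
                    ∃ j : Fin d, j.val < i.val ∧
                      f = ∑ t : Fin (d + 1), c j t •
                        (MvPowerSeries.X t : MvPowerSeries (Fin (d + 1)) k)} := by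
      unfold DD
      rw [Ideal.span_le]
      rintro _ ⟨j, rfl⟩
      unfold lin
      split_ifs with hj
      · exact Ideal.subset_span ⟨j, (Finset.mem_filter.mp hj).2, rfl⟩
      · exact zero_mem _
    have h4 : Ideal.ofList (F i) ^ (u + 1) ≤ I ^ (s * (u + 1)) := by
      rw [pow_mul]
      apply Ideal.pow_right_mono
      unfold Ideal.ofList
      rw [Ideal.span_le]
      exact hFI i
    calc lam k (I ^ (s * (u + 1)) ⊔ Ideal.span {f : MvPowerSeries (Fin (d + 1)) k |
                    ∃ j : Fin d, j.val < i.val ∧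
                      f = ∑ t : Fin (d + 1), c j t •
                        (MvPowerSeries.X t : MvPowerSeries (Fin (d + 1)) k)})
        ≤ lam k (DD (MvPowerSeries.X : Fin (d + 1) → MvPowerSeries (Fin (d + 1)) k)
            (Finset.univ.filter fun j : Fin d => j.val < i.val) (fun p => c p.1 p.2) ⊔
              Ideal.ofList (F i) ^ (u + 1)) :=
          lam_anti (sup_le (h3.trans le_sup_right) (h4.trans le_sup_left))
      _ ≤ _ := h2
      _ ≤ ((u + (d + 1 - i.val)).choose (d + 1 - i.val) : ℕ) *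
          ((E (d + 1 - i.val)).toNat : ℕ∞) := by gcongr
      _ = _ := by rw [Nat.cast_mul]
  -- the length of `R / I`
  have hlen : ((lam k I).toNat : ℝ) ≤ ((Module.length (MvPowerSeries (Fin (d + 1)) k)
      (MvPowerSeries (Fin (d + 1)) k ⧸ I)).toNat : ℝ) := by
    refine toNat_mono_real (ne_top_of_le_ne_top hfin (lengthR_le_lam I)) ?_
    obtain ⟨v, hv⟩ := ENat.ne_top_iff_exists.mp hfin
    exact hV.lam_le_lengthR v I (by rw [hv])
  -- summation
  have hsum : ∑ i : Fin d, ((ascPochhammer ℕ (d + 1)).coeff (d + 1 - i.val) : ℝ) * e i ≤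
      ∑ m ∈ Finset.range d, (cc (d + 1) (m + 1 + 1) : ℝ) *
        ((E (m + 1 + 1)).toNat / (s : ℝ) ^ (m + 1 + 1)) := by
    rw [← Finset.sum_range_reflect, ← Fin.sum_univ_eq_sum_range (fun j =>
      (cc (d + 1) (d - 1 - j + 1 + 1) : ℝ) *
        ((E (d - 1 - j + 1 + 1)).toNat / (s : ℝ) ^ (d - 1 - j + 1 + 1)))]
    refine Finset.sum_le_sum fun i _ => ?_
    have e1 : d - 1 - i.val + 1 + 1 = d + 1 - i.val := by
      have := i.2
      omega
    rw [e1]
    exact mul_le_mul_of_nonneg_left (hei i) (Nat.cast_nonneg _)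
  have hPhi : Phi V (d + 1) (Pw k I s) ⊥ s =
      ∑ m ∈ Finset.range d, (cc (d + 1) (m + 1 + 1) : ℝ) *
        ((E (m + 1 + 1)).toNat / (s : ℝ) ^ (m + 1 + 1)) +
      (cc (d + 1) 1 : ℝ) * ((E 1).toNat / (s : ℝ) ^ 1) +
      (cc (d + 1) 0 : ℝ) * ((E 0).toNat / (s : ℝ) ^ 0) := by
    unfold Phi
    rw [Finset.sum_range_succ', Finset.sum_range_succ']
  rw [hPhi, cc_zero_right _ (Nat.succ_ne_zero d)] at hs
  have h0 : ((d + 1).factorial : ℝ) * ((lam k I).toNat : ℝ) ≤ ((d + 1).factorial : ℝ) *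
      ((Module.length (MvPowerSeries (Fin (d + 1)) k)
      (MvPowerSeries (Fin (d + 1)) k ⧸ I)).toNat : ℝ) := by gcongr
  rw [Nat.cast_zero, zero_mul, add_zero] at hs
  linarith

end Assembly

end Pool.Agent.L0h92.Lech
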