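import Mathlib

/-!
# Colengths over a field

`lam K J` is the dimension of `R / J` over the field `K`, as an element of `ℕ∞`.
-/

set_option autoImplicit false

namespace Pool.Agent.L0h92.Lech

open Module Ideal

section Basic

variable (K : Type*) {R : Type*} [Field K] [CommRing R] [Algebra K R]

/-- The dimension of `R / J` over `K`. -/
noncomputable def lam (J : Ideal R) : ℕ∞ := Module.length K (R ⧸ J)

variable {K}

lemma lam_anti {J J' : Ideal R} (h : J ≤ J') : lam K J' ≤ lam K J := by
  refine Module.length_le_of_surjective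
    ((Ideal.Quotient.factorₐ K h).toLinearMap) ?_
  exact Ideal.Quotient.factor_surjective h

/-- `{r | x * r ∈ J}` -/
def col (J : Ideal R) (x : R) : Ideal R := Submodule.comap (LinearMap.mulLeft R x) J

@[simp] lemma mem_col {J : Ideal R} {x r : R} : r ∈ col J x ↔ x * r ∈ J := Iff.rfl

lemma le_col (J : Ideal R) (x : R) : J ≤ col J x := fun _ h => J.mul_mem_left _ h

lemma lam_top : lam K (⊤ : Ideal R) = 0 := by
  unfold lam
  have : Subsingleton (R ⧸ (⊤ : Ideal R)) := Ideal.Quotient.subsingleton_iff.mpr rfl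
  exact Module.length_eq_zero

/-- multiplication by `x`, `R / (J : x) → R / J` -/
noncomputable def mulMap (J : Ideal R) (x : R) : (R ⧸ col J x) →ₗ[K] (R ⧸ J) :=
  ((Submodule.mapQ (col J x) J (LinearMap.mulLeft R x) le_rfl).restrictScalars K)

lemma lam_eq_add (J : Ideal R) (x : R) :
    lam K J = lam K (J ⊔ span {x}) + lam K (col J x) := by
  unfold lam
  rw [add_comm]
  refine Module.length_eq_add_of_exact (mulMap (K := K) J x)
    ((Ideal.Quotient.factorₐ K (le_sup_left : J ≤ J ⊔ span {x})).toLinearMap) ?_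
    (Ideal.Quotient.factor_surjective (le_sup_left : J ≤ J ⊔ span {x})) ?_
  · rw [injective_iff_map_eq_zero]
    intro a ha
    obtain ⟨a, rfl⟩ := Ideal.Quotient.mk_surjective a
    have : Ideal.Quotient.mk J (x * a) = 0 := ha
    rw [Ideal.Quotient.eq_zero_iff_mem] at this ⊢
    exact this
  · intro a
    obtain ⟨a, rfl⟩ := Ideal.Quotient.mk_surjective a
    constructor
    · intro h
      have h1 : Ideal.Quotient.mk (J ⊔ span {x}) a = 0 := h
      rw [Ideal.Quotient.eq_zero_iff_mem, Submodule.mem_sup] at h1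
      obtain ⟨j, hj, z, hz, rfl⟩ := h1
      obtain ⟨c, rfl⟩ := Ideal.mem_span_singleton'.mp hz
      refine ⟨Ideal.Quotient.mk _ c, ?_⟩
      change Ideal.Quotient.mk J (x * c) = _
      rw [Ideal.Quotient.eq]
      have : x * c - (j + c * x) = -j := by ring
      rw [this]
      exact J.neg_mem hj
    · rintro ⟨c, hc⟩
      obtain ⟨c, rfl⟩ := Ideal.Quotient.mk_surjective c
      have h1 : Ideal.Quotient.mk J (x * c) = Ideal.Quotient.mk J a := hc
      rw [Ideal.Quotient.eq] at h1
      change Ideal.Quotient.mk (J ⊔ span {x}) a = 0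
      rw [Ideal.Quotient.eq_zero_iff_mem]
      have : a = -(x * c - a) + c * x := by ring
      rw [this]
      exact add_mem (Ideal.mem_sup_left (J.neg_mem h1))
        (Ideal.mem_sup_right (Ideal.mem_span_singleton'.mpr ⟨c, rfl⟩))

lemma lam_mul_le (J : Ideal R) (a b : R) :
    lam K (J ⊔ span {a * b}) ≤ lam K (J ⊔ span {a}) + lam K (J ⊔ span {b}) := by
  rw [lam_eq_add (J ⊔ span {a * b}) a]
  refine add_le_add (lam_anti ?_) (lam_anti ?_)
  · exact sup_le_sup_right le_sup_left _
  · rw [sup_le_iff, span_singleton_le_iff_mem]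
    refine ⟨?_, ?_⟩
    · exact le_trans le_sup_left (le_col _ _)
    · exact Ideal.mem_sup_right (Ideal.mem_span_singleton_self _)

lemma lam_pow_le (J : Ideal R) (a : R) (n : ℕ) :
    lam K (J ⊔ span {a ^ n}) ≤ n * lam K (J ⊔ span {a}) := by
  induction n with
  | zero => simp [lam_top]
  | succ n ih =>
    rw [pow_succ]
    refine le_trans (lam_mul_le _ _ _) ?_
    rw [Nat.cast_add, Nat.cast_one, add_mul, one_mul]
    gcongr

end Basic

section Rank

variable {K : Type*} [Field K] {U Q : Type*} [AddCommGroup U] [Module K U] [AddCommGroup Q]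
  [Module K Q] [Module.Finite K U]

lemma finite_not_injective {W : Type*} [AddCommGroup W] [Module K W] [Module.Finite K W]
    (N : W →ₗ[K] W) : {t : K | ¬ Function.Injective (LinearMap.id + t • N : W →ₗ[K] W)}.Finite := by
  have h1 : {μ : K | Module.End.HasEigenvalue N μ}.Finite := Module.End.finite_hasEigenvalue N
  refine (h1.image (fun μ => -μ⁻¹)).subset ?_
  intro t ht
  rw [Set.mem_setOf_eq, injective_iff_map_eq_zero] at ht
  push Not at ht
  obtain ⟨w, hw, hw0⟩ := ht
  rw [LinearMap.add_apply, LinearMap.id_apply, LinearMap.smul_apply] at hw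
  have ht0 : t ≠ 0 := by
    rintro rfl
    apply hw0
    simpa using hw
  refine ⟨-t⁻¹, ?_, by simp⟩
  refine Module.End.hasEigenvalue_of_hasEigenvector (x := w) ?_
  rw [Module.End.hasEigenvector_iff, Module.End.mem_eigenspace_iff]
  refine ⟨?_, hw0⟩
  have : t • N w = -w := by
    rw [eq_neg_iff_add_eq_zero, add_comm]; exact hw
  calc N w = t⁻¹ • (t • N w) := by rw [smul_smul, inv_mul_cancel₀ ht0, one_smul]
    _ = _ := by rw [this]; simp

/-- The rank can only drop at finitely many points of a pencil. -/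
lemma finite_rank_lt (A B : U →ₗ[K] Q) :
    {t : K | ¬ finrank K (LinearMap.range A) ≤ finrank K (LinearMap.range (A + t • B))}.Finite := by
  obtain ⟨W, hW⟩ := Submodule.exists_isCompl (LinearMap.ker A)
  have hinj : LinearMap.ker (A ∘ₗ W.subtype) = ⊥ := by
    rw [LinearMap.ker_eq_bot']
    intro w hw
    have h1 : (w : U) ∈ LinearMap.ker A ⊓ W := ⟨hw, w.2⟩
    rw [hW.inf_eq_bot, Submodule.mem_bot] at h1
    exact Subtype.ext h1
  obtain ⟨σ, hσ⟩ := (A ∘ₗ W.subtype).exists_leftInverse_of_injective hinj
  have hr : finrank K (LinearMap.range A) = finrank K W := by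
    have h1 := LinearMap.finrank_range_add_finrank_ker A
    have h2 := Submodule.finrank_add_eq_of_isCompl hW
    omega
  refine (finite_not_injective (σ ∘ₗ B ∘ₗ W.subtype)).subset ?_
  intro t ht hinj'
  apply ht
  rw [hr]
  have hinj2 : Function.Injective ((A + t • B) ∘ₗ W.subtype) := by
    have h3 : σ ∘ₗ ((A + t • B) ∘ₗ W.subtype) = LinearMap.id + t • (σ ∘ₗ B ∘ₗ W.subtype) := by
      rw [← hσ]
      ext w
      simp
    have h4 : Function.Injective (σ ∘ ((A + t • B) ∘ₗ W.subtype)) := by
      rw [← LinearMap.coe_comp, h3]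
      exact hinj'
    exact h4.of_comp
  calc finrank K W = finrank K (LinearMap.range ((A + t • B) ∘ₗ W.subtype)) :=
        (LinearMap.finrank_range_of_inj hinj2).symm
    _ ≤ _ := by
        apply Submodule.finrank_mono
        exact LinearMap.range_comp_le_range _ _

end Rank

end Pool.Agent.L0h92.Lech
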