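import Pool.Agent.L0h92.Lech.Lam

/-!
# Colengths in a local ring
-/

set_option autoImplicit false

namespace Pool.Agent.L0h92.Lech

open Module Ideal IsLocalRing

variable {K R : Type*} [Field K] [CommRing R] [Algebra K R] [IsLocalRing R]

/-- `V` is a finite dimensional space of generators of the maximal ideal, and the residue field
is `K`. -/
structure Good (V : Submodule K R) : Prop where
  span_eq : Ideal.span (V : Set R) = maximalIdeal R
  fin : Module.Finite K V
  const : ∀ r : R, ∃ c : K, r - algebraMap K R c ∈ maximalIdeal R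

variable {V : Submodule K R}

lemma Good.lam_max (hV : Good V) : lam K (maximalIdeal R) = 1 := by
  unfold lam
  have hb : Function.Bijective (Algebra.linearMap K (R ⧸ maximalIdeal R)) := by
    constructor
    · exact FaithfulSMul.algebraMap_injective K (R ⧸ maximalIdeal R)
    · intro a
      obtain ⟨a, rfl⟩ := Ideal.Quotient.mk_surjective a
      obtain ⟨c, hc⟩ := hV.const a
      refine ⟨c, ?_⟩
      change Ideal.Quotient.mk (maximalIdeal R) (algebraMap K R c) = _
      rw [Ideal.Quotient.eq]
      have : algebraMap K R c - a = -(a - algebraMap K R c) := by ring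
      rw [this]
      exact neg_mem hc
  rw [← (LinearEquiv.ofBijective _ hb).length_eq, Module.length_eq_finrank]
  simp

lemma lam_span_pow_le (N : ℕ) (s : Finset R) (J : Ideal R) :
    lam K (J ⊔ span ((fun x => x ^ N) '' (s : Set R))) ≤
      (N ^ s.card : ℕ) * lam K (J ⊔ span (s : Set R)) := by
  classical
  induction s using Finset.induction_on generalizing J with
  | empty => simp
  | insert a s ha ih =>
    have h1 : J ⊔ span ((fun x => x ^ N) '' ((insert a s : Finset R) : Set R)) =
        (J ⊔ span ((fun x => x ^ N) '' (s : Set R))) ⊔ span {a ^ N} := by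
      rw [Finset.coe_insert, Set.image_insert_eq, Ideal.span_insert, sup_assoc, sup_comm (span _)]
    have h2 : J ⊔ span ((insert a s : Finset R) : Set R) = (J ⊔ span {a}) ⊔ span (s : Set R) := by
      rw [Finset.coe_insert, Ideal.span_insert, sup_assoc]
    rw [h1, h2, Finset.card_insert_of_notMem ha]
    refine le_trans (lam_pow_le _ _ _) ?_
    have h3 : (J ⊔ span ((fun x => x ^ N) '' (s : Set R))) ⊔ span {a} =
        (J ⊔ span {a}) ⊔ span ((fun x => x ^ N) '' (s : Set R)) := by
      rw [sup_assoc, sup_assoc, sup_comm (span {a})]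
    rw [h3]
    refine le_trans (mul_le_mul_right (ih (J ⊔ span {a})) _) ?_
    rw [← mul_assoc, pow_succ']
    push_cast
    exact le_rfl

lemma Good.lam_pow_ne_top (hV : Good V) (N : ℕ) : lam K (maximalIdeal R ^ N) ≠ ⊤ := by
  classical
  have hfin := hV.fin
  obtain ⟨s, hs⟩ := (Module.Finite.iff_fg.mp hfin)
  have h1 : span (s : Set R) = maximalIdeal R := by
    rw [← hV.span_eq]
    apply le_antisymm
    · apply Ideal.span_mono
      rw [← hs]
      exact Submodule.subset_span
    · rw [Ideal.span_le]
      intro v hv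
      have hv' : v ∈ Submodule.span K (s : Set R) := by rw [hs]; exact hv
      induction hv' using Submodule.span_induction with
      | mem x hx => exact Ideal.subset_span hx
      | zero => exact zero_mem _
      | add x y hx hy h3 h4 =>
        rw [hs] at hx hy
        exact add_mem (h3 hx) (h4 hy)
      | smul c x hx h3 =>
        rw [hs] at hx
        rw [Algebra.smul_def]
        exact Ideal.mul_mem_left _ _ (h3 hx)
  have h2 := lam_span_pow_le (K := K) N s (⊥ : Ideal R)
  rw [bot_sup_eq, bot_sup_eq, h1, hV.lam_max, mul_one] at h2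
  have h3 : lam K (maximalIdeal R ^ N) ≤ lam K (span ((fun x => x ^ N) '' (s : Set R))) := by
    apply lam_anti
    rw [Ideal.span_le]
    rintro _ ⟨x, hx, rfl⟩
    apply Ideal.pow_mem_pow
    rw [← h1]
    exact Ideal.subset_span hx
  exact ne_top_of_le_ne_top (ENat.natCast_ne_top _) (h3.trans h2)

lemma finite_of_lam {A : Ideal R} (h : lam K A ≠ ⊤) : Module.Finite K (R ⧸ A) := by
  unfold lam at h
  rw [Module.length_ne_top_iff, isFiniteLength_iff_isNoetherian_isArtinian] at h
  obtain ⟨h1, -⟩ := h
  infer_instance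

lemma lam_eq_finrank {A : Ideal R} [Module.Finite K (R ⧸ A)] :
    lam K A = finrank K (R ⧸ A) := Module.length_eq_finrank _ _

lemma lam_eq_zero {A : Ideal R} (h : lam K A = 0) : A = ⊤ := by
  unfold lam at h
  rw [Module.length_eq_zero_iff] at h
  exact Ideal.Quotient.subsingleton_iff.mp h

lemma exists_pow_le {A : Ideal R} (h : lam K A ≠ ⊤) : ∃ n, maximalIdeal R ^ n ≤ A := by
  have := finite_of_lam h
  have : IsArtinianRing (R ⧸ A) := isArtinian_of_tower K inferInstance
  exact IsLocalRing.exists_maximalIdeal_pow_le_of_isArtinianRing_quotient A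

/-- If `dim R / A ≤ v` then `𝔪 ^ v ⊆ A`. -/
lemma Good.pow_le (hV : Good V) (v : ℕ) : ∀ A : Ideal R, lam K A ≤ v → maximalIdeal R ^ v ≤ A := by
  induction v with
  | zero =>
    intro A hA
    rw [lam_eq_zero (le_antisymm hA bot_le)]
    exact le_top
  | succ v ih =>
    intro A hA
    by_cases hAt : A = ⊤
    · rw [hAt]; exact le_top
    have hex := exists_pow_le (ne_top_of_le_ne_top (ENat.natCast_ne_top _) hA)
    classical
    have hn := Nat.find_spec hex
    have hmin := @Nat.find_min _ _ hex
    obtain ⟨k, hk⟩ : ∃ k, Nat.find hex = k + 1 := by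
      refine ⟨Nat.find hex - 1, ?_⟩
      have : Nat.find hex ≠ 0 := by
        intro h0
        rw [h0, pow_zero, Ideal.one_eq_top] at hn
        exact hAt (top_le_iff.mp hn)
      omega
    rw [hk] at hn
    have hk2 : ¬ maximalIdeal R ^ k ≤ A := hmin (by omega)
    obtain ⟨x, hxk, hxA⟩ := SetLike.not_le_iff_exists.mp hk2
    have hcol : col A x = maximalIdeal R := by
      symm
      apply (maximalIdeal.isMaximal R).eq_of_le
      · intro h
        apply hxA
        have : (1 : R) ∈ col A x := by rw [h]; trivial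
        rw [mem_col, mul_one] at this
        exact this
      · intro r hr
        rw [mem_col, mul_comm]
        apply hn
        rw [pow_succ']
        exact Ideal.mul_mem_mul hr hxk
    have h1 := lam_eq_add (K := K) A x
    rw [hcol, hV.lam_max] at h1
    rw [h1] at hA
    have h2 : lam K (A ⊔ span {x}) ≤ v := by
      have h3 : lam K (A ⊔ span {x}) + 1 ≤ (v : ℕ∞) + 1 := by exact_mod_cast hA
      exact (ENat.add_le_add_iff_right (by simp)).mp h3
    have h4 := ih _ h2
    calc maximalIdeal R ^ (v + 1) = maximalIdeal R * maximalIdeal R ^ v := pow_succ' _ _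
      _ ≤ maximalIdeal R * (A ⊔ span {x}) := Ideal.mul_mono_right h4
      _ ≤ A := by
        rw [Ideal.mul_sup, sup_le_iff]
        refine ⟨Ideal.mul_le_right, ?_⟩
        rw [Ideal.mul_le]
        intro r hr y hy
        obtain ⟨c, rfl⟩ := Ideal.mem_span_singleton'.mp hy
        have h5 : x * r ∈ A := by
          have : r ∈ col A x := by rw [hcol]; exact hr
          exact this
        have : r * (c * x) = c * (x * r) := by ring
        rw [this]
        exact A.mul_mem_left _ h5

lemma Good.fg (hV : Good V) (N : ℕ) : (maximalIdeal R ^ N).FG := by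
  apply Ideal.FG.pow
  rw [← hV.span_eq]
  have hfin := hV.fin
  obtain ⟨s, hs⟩ := (Module.Finite.iff_fg.mp hfin)
  refine ⟨s, le_antisymm ?_ ?_⟩
  · rw [Submodule.span_le]
    intro x hx
    apply Ideal.subset_span
    rw [SetLike.mem_coe, ← hs]
    exact Submodule.subset_span hx
  · rw [Submodule.span_le]
    intro v hv
    rw [SetLike.mem_coe, ← hs] at hv
    have h : Submodule.span K (s : Set R) ≤ (Submodule.span R (s : Set R)).restrictScalars K :=
      Submodule.span_le_restrictScalars K R _
    exact h hv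

/-- Nakayama -/
lemma Good.nak (hV : Good V) {A : Ideal R} {n : ℕ}
    (h : maximalIdeal R ^ n ≤ A ⊔ maximalIdeal R ^ (n + 1)) : maximalIdeal R ^ n ≤ A := by
  refine Submodule.le_of_le_smul_of_le_jacobson_bot (I := maximalIdeal R) (hV.fg n) ?_ ?_
  · exact IsLocalRing.maximalIdeal_le_jacobson _
  · rw [smul_eq_mul, ← pow_succ']
    exact h

/-- multiplication by `f` on `R / A`. -/
noncomputable def mulQ (A : Ideal R) (f : R) : (R ⧸ A) →ₗ[K] (R ⧸ A) :=
  LinearMap.mulLeft K (Ideal.Quotient.mk A f)

lemma finrank_range_mulQ (A : Ideal R) [Module.Finite K (R ⧸ A)] (f : R) :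
    finrank K (R ⧸ (A ⊔ span {f})) + finrank K (LinearMap.range (mulQ (K := K) A f)) =
      finrank K (R ⧸ A) := by
  set π : (R ⧸ A) →ₗ[K] (R ⧸ (A ⊔ span {f})) :=
    (Ideal.Quotient.factorₐ K (le_sup_left : A ≤ A ⊔ span {f})).toLinearMap with hπ
  have hs : Function.Surjective π := Ideal.Quotient.factor_surjective
    (le_sup_left : A ≤ A ⊔ span {f})
  have hk : LinearMap.ker π = LinearMap.range (mulQ (K := K) A f) := by
    ext a
    obtain ⟨a, rfl⟩ := Ideal.Quotient.mk_surjective a
    constructor
    · intro h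
      have h1 : Ideal.Quotient.mk (A ⊔ span {f}) a = 0 := h
      rw [Ideal.Quotient.eq_zero_iff_mem, Submodule.mem_sup] at h1
      obtain ⟨j, hj, z, hz, rfl⟩ := h1
      obtain ⟨c, rfl⟩ := Ideal.mem_span_singleton'.mp hz
      refine ⟨Ideal.Quotient.mk _ c, ?_⟩
      change Ideal.Quotient.mk A f * Ideal.Quotient.mk A c = _
      rw [← map_mul, Ideal.Quotient.eq]
      have : f * c - (j + c * f) = -j := by ring
      rw [this]
      exact A.neg_mem hj
    · rintro ⟨c, hc⟩
      obtain ⟨c, rfl⟩ := Ideal.Quotient.mk_surjective c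
      have h1 : Ideal.Quotient.mk A (f * c) = Ideal.Quotient.mk A a := by
        rw [map_mul]; exact hc
      rw [Ideal.Quotient.eq] at h1
      change Ideal.Quotient.mk (A ⊔ span {f}) a = 0
      rw [Ideal.Quotient.eq_zero_iff_mem]
      have : a = -(f * c - a) + c * f := by ring
      rw [this]
      exact add_mem (Ideal.mem_sup_left (A.neg_mem h1))
        (Ideal.mem_sup_right (Ideal.mem_span_singleton'.mpr ⟨c, rfl⟩))
  rw [← hk, ← LinearMap.finrank_range_add_finrank_ker π, LinearMap.range_eq_top.mpr hs,
    finrank_top]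

/-- Semicontinuity of the colength along a pencil. -/
lemma Good.semicont (hV : Good V) (J : Ideal R) (f g : R) :
    {t : K | ¬ lam K (J ⊔ span {f + t • g}) ≤ lam K (J ⊔ span {f})}.Finite := by
  by_cases htop : lam K (J ⊔ span {f}) = ⊤
  · rw [htop]; simp
  obtain ⟨v, hv⟩ := ENat.ne_top_iff_exists.mp htop
  rw [← hv]
  set A := J ⊔ maximalIdeal R ^ (v + 1) with hA
  have hfinA : Module.Finite K (R ⧸ A) :=
    finite_of_lam (ne_top_of_le_ne_top (hV.lam_pow_ne_top (v + 1)) (lam_anti le_sup_right))
  refine (finite_rank_lt (mulQ (K := K) A f) (mulQ (K := K) A g)).subset ?_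
  intro t ht hr
  apply ht
  have hmk : Ideal.Quotient.mk A (t • g) = t • Ideal.Quotient.mk A g :=
    map_smul (Ideal.Quotient.mkₐ K A) t g
  have hadd : mulQ (K := K) A f + t • mulQ (K := K) A g = mulQ (K := K) A (f + t • g) := by
    refine LinearMap.ext fun a => ?_
    change Ideal.Quotient.mk A f * a + t • (Ideal.Quotient.mk A g * a) =
      Ideal.Quotient.mk A (f + t • g) * a
    rw [map_add, hmk, add_mul, smul_mul_assoc]
  rw [hadd] at hr
  have h1 := finrank_range_mulQ (K := K) A f
  have h2 := finrank_range_mulQ (K := K) A (f + t • g)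
  have hfin1 : Module.Finite K (R ⧸ (A ⊔ span {f})) :=
    finite_of_lam (ne_top_of_le_ne_top (hV.lam_pow_ne_top (v + 1))
      (lam_anti (le_sup_right.trans le_sup_left)))
  have hfin2 : Module.Finite K (R ⧸ (A ⊔ span {f + t • g})) :=
    finite_of_lam (ne_top_of_le_ne_top (hV.lam_pow_ne_top (v + 1))
      (lam_anti (le_sup_right.trans le_sup_left)))
  have h3 : lam K (A ⊔ span {f + t • g}) ≤ v := by
    calc lam K (A ⊔ span {f + t • g}) = finrank K (R ⧸ (A ⊔ span {f + t • g})) := lam_eq_finrank
      _ ≤ finrank K (R ⧸ (A ⊔ span {f})) := by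
          have : finrank K (R ⧸ (A ⊔ span {f + t • g})) ≤ finrank K (R ⧸ (A ⊔ span {f})) := by
            omega
          exact_mod_cast this
      _ = lam K (A ⊔ span {f}) := lam_eq_finrank.symm
      _ ≤ lam K (J ⊔ span {f}) := lam_anti (sup_le_sup_right le_sup_left _)
      _ = v := hv.symm
  have h4 := hV.pow_le v _ h3
  have h5 : maximalIdeal R ^ v ≤ J ⊔ span {f + t • g} := by
    apply hV.nak
    refine h4.trans ?_
    rw [hA, sup_assoc, sup_assoc, sup_comm (maximalIdeal R ^ (v + 1))]
  have h6 : A ⊔ span {f + t • g} = J ⊔ span {f + t • g} := by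
    apply le_antisymm
    · refine sup_le (sup_le le_sup_left ?_) le_sup_right
      exact (Ideal.pow_le_pow_right (Nat.le_succ v)).trans h5
    · exact sup_le_sup_right le_sup_left _
  rw [← h6]
  exact h3

end Pool.Agent.L0h92.Lech
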