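import Mathlib

/-!
# Rising factorials and a functional inequality
-/

set_option autoImplicit false

namespace Pool.Agent.L0h92.Lech

open MvPolynomial

section Identities

variable {A : Type*} [CommRing A]

/-- `(x (x + m) ⋯ (x + (n - 1) m) - x ^ n) / m` -/
def TT (x m : A) : ℕ → A
  | 0 => 0
  | n + 1 => x * TT x m n + n * (x ^ n + m * TT x m n)

/-- `x (x + m) ⋯ (x + (n - 1) m)` -/
def PP (x m : A) (n : ℕ) : A := x ^ n + m * TT x m n

/-- `∑ a ^ (n - k) b ^ k` -/
def hh (a b : A) : ℕ → A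
  | 0 => 1
  | n + 1 => a * hh a b n + b ^ (n + 1)

/-- the quotient polynomial -/
def QQ (a b m : A) : ℕ → A
  | 0 => 0
  | n + 1 => (a + n * m) * QQ a b m n + n * hh a b n + TT b m (n + 1)

lemma TT_zero (x m : A) : TT x m 0 = 0 := rfl
lemma TT_succ (x m : A) (n : ℕ) : TT x m (n + 1) = x * TT x m n + n * PP x m n := rfl
lemma hh_zero (a b : A) : hh a b 0 = 1 := rfl
lemma hh_succ (a b : A) (n : ℕ) : hh a b (n + 1) = a * hh a b n + b ^ (n + 1) := rfl
lemma QQ_zero (a b m : A) : QQ a b m 0 = 0 := rfl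
lemma QQ_succ (a b m : A) (n : ℕ) :
    QQ a b m (n + 1) = (a + n * m) * QQ a b m n + n * hh a b n + TT b m (n + 1) := rfl

lemma hh_mul (a b : A) (n : ℕ) : (b - a) * hh a b n = b ^ (n + 1) - a ^ (n + 1) := by
  induction n with
  | zero => rw [hh_zero]; ring
  | succ n ih =>
    rw [hh_succ]
    linear_combination a * ih

lemma ident (a b m : A) (n : ℕ) :
    PP a m n - a * TT a m n + TT b m (n + 1) - hh a b n = (b + m - a) * QQ a b m n := by
  induction n with
  | zero => simp [PP, TT, hh, QQ]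
  | succ n ih =>
    rw [QQ_succ, hh_succ]
    have h1 := hh_mul a b n
    have h2 : PP a m (n + 1) = (a + n * m) * PP a m n := by
      unfold PP; rw [TT_succ]; unfold PP; ring
    have h3 : TT a m (n + 1) = a * TT a m n + n * PP a m n := rfl
    have h4 : TT b m (n + 1 + 1) = b * TT b m (n + 1) + ((n + 1 : ℕ) : A) * PP b m (n + 1) := rfl
    have h5 : PP b m (n + 1) = b ^ (n + 1) + m * TT b m (n + 1) := rfl
    have h6 : PP a m n = a ^ n + m * TT a m n := rfl
    rw [h2, h3, h4, h5]
    push_cast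
    linear_combination (a + n * m) * ih - n * h1 - n * a * h6

end Identities

section Cone

variable {σ : Type*}

/-- Homogeneous polynomials of degree `n` with nonnegative coefficients. -/
def Cone (n : ℕ) : Set (MvPolynomial σ ℝ) := {p | p.IsHomogeneous n ∧ ∀ e, 0 ≤ p.coeff e}

lemma Cone.zero (n : ℕ) : (0 : MvPolynomial σ ℝ) ∈ Cone n :=
  ⟨isHomogeneous_zero _ _ _, fun e => by simp⟩

lemma Cone.add {n : ℕ} {p q : MvPolynomial σ ℝ} (hp : p ∈ Cone n) (hq : q ∈ Cone n) :
    p + q ∈ Cone n :=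
  ⟨hp.1.add hq.1, fun e => by rw [coeff_add]; exact add_nonneg (hp.2 e) (hq.2 e)⟩

lemma Cone.mul {n m : ℕ} {p q : MvPolynomial σ ℝ} (hp : p ∈ Cone n) (hq : q ∈ Cone m) :
    p * q ∈ Cone (n + m) := by
  classical
  refine ⟨hp.1.mul hq.1, fun e => ?_⟩
  rw [coeff_mul]
  exact Finset.sum_nonneg fun x _ => mul_nonneg (hp.2 _) (hq.2 _)

lemma Cone.X (i : σ) : (MvPolynomial.X i : MvPolynomial σ ℝ) ∈ Cone 1 := by
  classical
  refine ⟨isHomogeneous_X _ _, fun e => ?_⟩
  rw [coeff_X]
  split_ifs <;> norm_num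

lemma Cone.natCast (k : ℕ) : (k : MvPolynomial σ ℝ) ∈ Cone 0 := by
  classical
  have : (k : MvPolynomial σ ℝ) = C (k : ℝ) := by simp
  rw [this]
  refine ⟨isHomogeneous_C _ _, fun e => ?_⟩
  rw [coeff_C]
  split_ifs
  · positivity
  · norm_num

lemma Cone.natCast_mul {n : ℕ} (k : ℕ) {p : MvPolynomial σ ℝ} (hp : p ∈ Cone n) :
    (k : MvPolynomial σ ℝ) * p ∈ Cone n := by
  have := Cone.mul (Cone.natCast k) hp
  rwa [zero_add] at this

lemma Cone.X_mul {n : ℕ} (i : σ) {p : MvPolynomial σ ℝ} (hp : p ∈ Cone n) :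
    MvPolynomial.X i * p ∈ Cone (n + 1) := by
  have := Cone.mul (Cone.X i) hp
  rwa [add_comm] at this

lemma Cone.X_pow (i : σ) (n : ℕ) : (MvPolynomial.X i ^ n : MvPolynomial σ ℝ) ∈ Cone n := by
  induction n with
  | zero => simpa using Cone.natCast (σ := σ) 1
  | succ n ih => rw [pow_succ']; exact Cone.X_mul i ih

lemma Cone.TT (i j : σ) (n : ℕ) :
    TT (MvPolynomial.X i : MvPolynomial σ ℝ) (MvPolynomial.X j) (n + 1) ∈ Cone n ∧
    PP (MvPolynomial.X i : MvPolynomial σ ℝ) (MvPolynomial.X j) n ∈ Cone n := by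
  induction n with
  | zero =>
    refine ⟨?_, ?_⟩
    · simpa [Lech.TT] using Cone.zero (σ := σ) 0
    · simpa [PP, Lech.TT] using Cone.natCast (σ := σ) 1
  | succ n ih =>
    have h1 : PP (MvPolynomial.X i : MvPolynomial σ ℝ) (MvPolynomial.X j) (n + 1) ∈
        Cone (n + 1) := Cone.add (Cone.X_pow i _) (Cone.X_mul j ih.1)
    refine ⟨?_, h1⟩
    rw [TT_succ]
    exact Cone.add (Cone.X_mul i ih.1) (Cone.natCast_mul _ h1)

lemma Cone.hh (i j : σ) (n : ℕ) :
    hh (MvPolynomial.X i : MvPolynomial σ ℝ) (MvPolynomial.X j) n ∈ Cone n := by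
  induction n with
  | zero => simpa [Lech.hh] using Cone.natCast (σ := σ) 1
  | succ n ih =>
    rw [hh_succ]
    exact Cone.add (Cone.X_mul i ih) (Cone.X_pow j _)

lemma Cone.QQ (i j l : σ) (n : ℕ) :
    QQ (MvPolynomial.X i : MvPolynomial σ ℝ) (MvPolynomial.X j) (MvPolynomial.X l) (n + 1) ∈
      Cone n := by
  induction n with
  | zero => simpa [Lech.QQ, Lech.TT] using Cone.zero (σ := σ) 0
  | succ n ih =>
    rw [QQ_succ, add_mul, mul_assoc]
    exact Cone.add (Cone.add (Cone.add (Cone.X_mul i ih) (Cone.natCast_mul _ (Cone.X_mul l ih)))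
      (Cone.natCast_mul _ (Cone.hh i j _))) (Cone.TT j l (n + 1)).1

end Cone

section Functional

variable {σ : Type*}

/-- The linear functional with the given values on the monomials. -/
noncomputable def LL (w : (σ →₀ ℕ) → ℝ) : MvPolynomial σ ℝ →ₗ[ℝ] ℝ :=
  (MvPolynomial.basisMonomials σ ℝ).constr ℝ w

lemma LL_monomial (w : (σ →₀ ℕ) → ℝ) (e : σ →₀ ℕ) : LL w (monomial e 1) = w e := by
  unfold LL
  have := (MvPolynomial.basisMonomials σ ℝ).constr_basis ℝ w e
  rwa [coe_basisMonomials] at this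

lemma LL_nonneg {w : (σ →₀ ℕ) → ℝ} {n : ℕ} {p q : MvPolynomial σ ℝ}
    (h : ∀ e : σ →₀ ℕ, e.degree = n → 0 ≤ LL w (p * monomial e 1)) (hq : q ∈ Cone n) :
    0 ≤ LL w (p * q) := by
  rw [q.as_sum, Finset.mul_sum, map_sum]
  refine Finset.sum_nonneg fun e he => ?_
  have h1 : monomial e (coeff e q) = coeff e q • monomial e (1 : ℝ) := by
    rw [smul_monomial, smul_eq_mul, mul_one]
  rw [h1, mul_smul_comm, map_smul, smul_eq_mul]
  refine mul_nonneg (hq.2 e) (h e ?_)
  have h2 := hq.1 (mem_support_iff.mp he)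
  rw [Finsupp.degree_eq_weight_one]
  exact h2

/-- The key inequality. -/
lemma key {w : (σ →₀ ℕ) → ℝ} {a b m : σ} {n : ℕ}
    (hw : ∀ e : σ →₀ ℕ, e.degree + 1 = n →
      w (Finsupp.single a 1 + e) ≤ w (Finsupp.single b 1 + e) + w (Finsupp.single m 1 + e)) :
    LL w (hh (X a) (X b) n) ≤ LL w (PP (X a) (X m) n) - LL w (X a * TT (X a) (X m) n) +
      LL w (TT (X b) (X m) (n + 1)) := by
  have h1 := ident (X a : MvPolynomial σ ℝ) (X b) (X m) n
  have h2 : 0 ≤ LL w ((X b + X m - X a) * QQ (X a) (X b) (X m) n) := by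
    cases n with
    | zero => rw [QQ_zero, mul_zero, map_zero]
    | succ n =>
      refine LL_nonneg (fun e he => ?_) (Cone.QQ a b m n)
      rw [sub_mul, add_mul, map_sub, map_add]
      have h3 : ∀ i : σ, LL w (X i * monomial e 1) = w (Finsupp.single i 1 + e) := by
        intro i
        rw [X, monomial_mul, one_mul, LL_monomial]
      rw [h3, h3, h3]
      have := hw e (by rw [he])
      linarith
  rw [← h1, map_sub, map_add, map_sub] at h2
  linarith

end Functional

section Closed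

/-- the coefficients of the rising factorials -/
noncomputable def cc (n k : ℕ) : ℕ := (ascPochhammer ℕ n).coeff k

lemma cc_succ (n k : ℕ) : cc (n + 1) (k + 1) = cc n k + n * cc n (k + 1) := by
  unfold cc
  rw [ascPochhammer_succ_right, mul_add, Polynomial.coeff_add, Polynomial.coeff_mul_X,
    Polynomial.coeff_mul_natCast, mul_comm n, Nat.cast_id]

lemma cc_succ_zero (n : ℕ) : cc (n + 1) 0 = n * cc n 0 := by
  unfold cc
  rw [ascPochhammer_succ_right, mul_add, Polynomial.coeff_add, Polynomial.coeff_mul_natCast]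
  simp [mul_comm]

lemma cc_self (n : ℕ) : cc n n = 1 := by
  unfold cc
  have h := monic_ascPochhammer ℕ n
  rw [Polynomial.Monic, Polynomial.leadingCoeff, ascPochhammer_natDegree] at h
  exact h

lemma cc_zero_right (n : ℕ) (hn : n ≠ 0) : cc n 0 = 0 := by
  unfold cc
  rw [Polynomial.coeff_zero_eq_eval_zero, ascPochhammer_ne_zero_eval_zero _ hn]

lemma cc_one_pos (n : ℕ) (hn : 1 ≤ n) : 1 ≤ cc n 1 := by
  induction n, hn using Nat.le_induction with
  | base => rw [cc_self]
  | succ n hn ih =>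
    rw [cc_succ]
    nlinarith [Nat.zero_le (cc n 0)]

variable {A : Type*} [CommRing A]

lemma TT_closed (x m : A) (n : ℕ) :
    TT x m n = ∑ k ∈ Finset.range n, (cc n k : A) * (x ^ k * m ^ (n - 1 - k)) := by
  induction n with
  | zero => simp [TT]
  | succ n ih =>
    have hP : PP x m n = ∑ k ∈ Finset.range (n + 1), (cc n k : A) * (x ^ k * m ^ (n - k)) := by
      unfold PP
      rw [Finset.sum_range_succ, cc_self, Nat.sub_self, pow_zero, ih, Finset.mul_sum, add_comm]
      simp only [Nat.cast_one, one_mul, mul_one]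
      congr 1
      refine Finset.sum_congr rfl fun k hk => ?_
      have : n - k = (n - 1 - k) + 1 := by
        have := Finset.mem_range.mp hk
        omega
      rw [this, pow_succ]
      ring
    rw [TT_succ, hP, ih, Finset.mul_sum, Finset.mul_sum, Finset.sum_range_succ']
    have h1 : ∑ k ∈ Finset.range n, x * ((cc n k : A) * (x ^ k * m ^ (n - 1 - k))) +
        ∑ k ∈ Finset.range n, (n : A) * ((cc n (k + 1) : A) * (x ^ (k + 1) * m ^ (n - (k + 1)))) =
        ∑ k ∈ Finset.range n, (cc (n + 1) (k + 1) : A) * (x ^ (k + 1) * m ^ (n + 1 - 1 - (k + 1)))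
        := by
      rw [← Finset.sum_add_distrib]
      refine Finset.sum_congr rfl fun k hk => ?_
      have e1 : n + 1 - 1 - (k + 1) = n - 1 - k := by omega
      have e2 : n - (k + 1) = n - 1 - k := by omega
      rw [e1, e2, cc_succ]
      push_cast
      ring
    rw [Finset.sum_range_succ', ← h1, cc_succ_zero, ← add_assoc]
    congr 1
    rw [Nat.add_sub_cancel]
    push_cast
    ring

lemma PP_closed (x m : A) (n : ℕ) :
    PP x m n = ∑ k ∈ Finset.range (n + 1), (cc n k : A) * (x ^ k * m ^ (n - k)) := by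
  unfold PP
  rw [Finset.sum_range_succ, cc_self, Nat.sub_self, pow_zero, TT_closed, Finset.mul_sum, add_comm]
  simp only [Nat.cast_one, one_mul, mul_one]
  congr 1
  refine Finset.sum_congr rfl fun k hk => ?_
  have : n - k = (n - 1 - k) + 1 := by
    have := Finset.mem_range.mp hk
    omega
  rw [this, pow_succ]
  ring

lemma hh_closed (a b : A) (n : ℕ) :
    hh a b n = ∑ k ∈ Finset.range (n + 1), a ^ (n - k) * b ^ k := by
  induction n with
  | zero => simp [hh]
  | succ n ih =>
    rw [hh_succ, ih, Finset.sum_range_succ _ (n + 1), Finset.mul_sum, Nat.sub_self, pow_zero,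
      one_mul]
    congr 1
    refine Finset.sum_congr rfl fun k hk => ?_
    have : n + 1 - k = (n - k) + 1 := by
      have := Finset.mem_range.mp hk
      omega
    rw [this, pow_succ]
    ring

end Closed

end Pool.Agent.L0h92.Lech
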