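import Pool.Agent.L0h92.Lech.Clo
import Pool.Agent.L0h92.Lech.Poly

/-!
# The main inequality
-/

set_option autoImplicit false

namespace Pool.Agent.L0h92.Lech

open Module Ideal IsLocalRing

variable {K R : Type*} [Field K] [CommRing R] [Algebra K R]

/-- The dimension of `V` modulo `J` is at most `n`. -/
def Dim (V : Submodule K R) (J : Ideal R) (n : ℕ) : Prop :=
  finrank K V ≤ n + finrank K (V ⊓ J.restrictScalars K : Submodule K R)

/-- a power of an ideal as a subspace -/
def Pw (K : Type*) {R : Type*} [Field K] [CommRing R] [Algebra K R] (I : Ideal R) (s : ℕ) :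
    Submodule K R := (I ^ s).restrictScalars K

lemma mem_Pw {I : Ideal R} {s : ℕ} {r : R} : r ∈ Pw K I s ↔ r ∈ I ^ s := Iff.rfl

/-- `∑ c(n,k) E(A^k, V^{n-k}; J) / s^k` -/
noncomputable def Phi (V : Submodule K R) (n : ℕ) (A : Submodule K R) (J : Ideal R) (s : ℕ) : ℝ :=
  ∑ k ∈ Finset.range (n + 1), (cc n k : ℝ) *
    ((EM (Multiset.replicate k A + Multiset.replicate (n - k) V) J).toNat / (s : ℝ) ^ k)

lemma EM_mono_add {U W : Submodule K R} {J : Ideal R} (h : ∀ f ∈ W, ∃ g ∈ U, f - g ∈ J)
    (k : ℕ) (L : Multiset (Submodule K R)) :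
    EM (Multiset.replicate k U + L) J ≤ EM (Multiset.replicate k W + L) J := by
  induction k generalizing L with
  | zero => simp
  | succ k ih =>
    rw [Multiset.replicate_succ, Multiset.replicate_succ, Multiset.cons_add, Multiset.cons_add]
    calc EM (U ::ₘ (Multiset.replicate k U + L)) J
        ≤ EM (W ::ₘ (Multiset.replicate k U + L)) J := EM_slot_mod h
      _ = EM (Multiset.replicate k U + (W ::ₘ L)) J := by rw [Multiset.add_cons]
      _ ≤ EM (Multiset.replicate k W + (W ::ₘ L)) J := ih _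
      _ = EM (W ::ₘ (Multiset.replicate k W + L)) J := by rw [Multiset.add_cons]

variable [IsLocalRing R] {V : Submodule K R}

lemma Dim.mono {J : Ideal R} {n m : ℕ} (h : Dim V J n) (hnm : n ≤ m) : Dim V J m := by
  unfold Dim at *; omega

lemma Good.sub_max (hV : Good V) {x : R} (hx : x ∈ V) : x ∈ maximalIdeal R := by
  rw [← hV.span_eq]
  exact Ideal.subset_span hx

lemma Dim.zero (hV : Good V) {J : Ideal R} (h : Dim V J 0) : maximalIdeal R ≤ J := by
  have := hV.fin
  unfold Dim at h
  rw [zero_add] at h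
  have h1 : (V ⊓ J.restrictScalars K : Submodule K R) = V :=
    Submodule.eq_of_le_of_finrank_le inf_le_left h
  rw [← hV.span_eq, Ideal.span_le]
  intro x hx
  rw [← h1] at hx
  exact hx.2

lemma Dim.succ (hV : Good V) {J : Ideal R} {n : ℕ} (h : Dim V J (n + 1)) {x : R} (hx : x ∈ V)
    (hxJ : x ∉ J) : Dim V (J ⊔ span {x}) n := by
  have := hV.fin
  unfold Dim at *
  have h1 : (V ⊓ J.restrictScalars K : Submodule K R) < V ⊓ (J ⊔ span {x}).restrictScalars K := by
    rw [SetLike.lt_iff_le_and_exists]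
    refine ⟨fun y hy => ⟨hy.1, Ideal.mem_sup_left hy.2⟩, x, ⟨hx, ?_⟩, fun hx' => hxJ hx'.2⟩
    exact Ideal.mem_sup_right (Ideal.mem_span_singleton_self _)
  have hfin : Module.Finite K ↥(V ⊓ (J ⊔ span {x}).restrictScalars K) :=
    Submodule.finiteDimensional_of_le inf_le_left
  have h2 := Submodule.finrank_lt_finrank_of_lt h1
  omega

lemma Dim.le {J : Ideal R} (h : V ≤ J.restrictScalars K) (n : ℕ) : Dim V J n := by
  unfold Dim
  rw [inf_eq_left.mpr h]
  omega

lemma Dim.anti (hV : Good V) {J J' : Ideal R} (h : J ≤ J') {n : ℕ} (hd : Dim V J n) :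
    Dim V J' n := by
  have := hV.fin
  unfold Dim at *
  have hfin : Module.Finite K ↥(V ⊓ J'.restrictScalars K) :=
    Submodule.finiteDimensional_of_le inf_le_left
  have h2 : finrank K (V ⊓ J.restrictScalars K : Submodule K R) ≤
      finrank K (V ⊓ J'.restrictScalars K : Submodule K R) :=
    Submodule.finrank_mono (inf_le_inf_left _ fun x hx => h hx)
  omega

lemma Good.EM_ne_top [Infinite K] (hV : Good V) (L : Multiset (Submodule K R))
    (J : Ideal R) (hL : ∀ U ∈ L, ∃ t : ℕ, ∀ x ∈ V, x ^ t ∈ U) (hd : Dim V J (Multiset.card L)) :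
    EM L J ≠ ⊤ := by
  induction L using Multiset.induction_on generalizing J with
  | empty =>
    rw [EM_zero]
    have h1 := hd.zero hV
    refine ne_top_of_le_ne_top ?_ (lam_anti h1)
    rw [hV.lam_max]
    simp
  | cons U L ih =>
    rw [Multiset.card_cons] at hd
    have hL' : ∀ U ∈ L, ∃ t : ℕ, ∀ x ∈ V, x ^ t ∈ U :=
      fun W hW => hL W (Multiset.mem_cons_of_mem hW)
    by_cases hVJ : V ≤ J.restrictScalars K
    · refine ne_top_of_le_ne_top (ih (J ⊔ span {0}) hL' ?_) (EM_cons_le (zero_mem U))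
      exact Dim.anti hV le_sup_left (Dim.le hVJ _)
    · obtain ⟨x, hx, hxJ⟩ := SetLike.not_le_iff_exists.mp hVJ
      have h1 := ih (J ⊔ span {x}) hL' (hd.succ hV hx hxJ)
      obtain ⟨t, ht⟩ := hL U (Multiset.mem_cons_self _ _)
      refine ne_top_of_le_ne_top ?_ ((EM_cons_le (ht x hx)).trans
        (hV.EM_pow_le L J x t))
      exact WithTop.mul_ne_top (α := ℕ) (ENat.natCast_ne_top _) h1

/-- Replacing the slots one at a time. -/
lemma Good.chain_step [Infinite K] (hV : Good V) {A B : Submodule K R} {x : R} {s : ℕ}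
    (h : ∀ g ∈ B, x ^ s * g ∈ A) (J : Ideal R) (n : ℕ) (L : Multiset (Submodule K R)) :
    EM (Multiset.replicate n A + L) J ≤
      s * ∑ k ∈ Finset.range n, EM (Multiset.replicate (n - 1 - k) A + Multiset.replicate k B + L)
        (J ⊔ span {x}) + EM (Multiset.replicate n B + L) J := by
  induction n generalizing L with
  | zero => simp
  | succ n ih =>
    rw [Multiset.replicate_succ, Multiset.cons_add]
    refine (hV.EM_slot h _ J).trans ?_
    have h1 : EM (B ::ₘ (Multiset.replicate n A + L)) J =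
        EM (Multiset.replicate n A + (B ::ₘ L)) J := by rw [Multiset.add_cons]
    rw [h1]
    refine le_trans (add_le_add le_rfl (ih (B ::ₘ L))) ?_
    have h2 : EM (Multiset.replicate n B + (B ::ₘ L)) J =
        EM (Multiset.replicate (n + 1) B + L) J := by
      rw [Multiset.add_cons, Multiset.replicate_succ, Multiset.cons_add]
    rw [h2, ← add_assoc, ← mul_add, Finset.sum_range_succ',
      add_comm (EM (Multiset.replicate n A + L) (J ⊔ span {x}))]
    refine le_of_eq ?_
    congr 3
    · refine Finset.sum_congr rfl fun k hk => ?_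
      have e1 : n + 1 - 1 - (k + 1) = n - 1 - k := by omega
      rw [e1, Multiset.add_cons, Multiset.replicate_succ, Multiset.add_cons, Multiset.cons_add]
    · simp

lemma Good.chain [Infinite K] (hV : Good V) {A : ℕ → Submodule K R} {x : R} {s : ℕ}
    (h : ∀ j, ∀ g ∈ A (j + 1), x ^ s * g ∈ A j) (J : Ideal R) (n : ℕ) (T : ℕ) :
    EM (Multiset.replicate n (A 0)) J ≤
      s * ∑ j ∈ Finset.range T, ∑ k ∈ Finset.range n,
        EM (Multiset.replicate (n - 1 - k) (A j) + Multiset.replicate k (A (j + 1)))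
        (J ⊔ span {x}) + EM (Multiset.replicate n (A T)) J := by
  induction T with
  | zero => simp
  | succ T ih =>
    refine ih.trans ?_
    rw [Finset.sum_range_succ, mul_add, add_assoc]
    gcongr
    have := hV.chain_step (h T) J n 0
    simpa using this

section Func

open MvPolynomial

variable {σ : Type*}

/-- the weights -/
noncomputable def ww (U : σ → Submodule K R) (r : σ → ℝ) (J : Ideal R) (e : σ →₀ ℕ) : ℝ :=
  (EM ((Finsupp.toMultiset e).map U) J).toNat * ((Finsupp.toMultiset e).map r).prod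

omit [IsLocalRing R] in
lemma LL_pow_mul_pow (U : σ → Submodule K R) (r : σ → ℝ) (J : Ideal R) (i j : σ) (k l : ℕ) :
    LL (ww U r J) (X i ^ k * X j ^ l) =
      (EM (Multiset.replicate k (U i) + Multiset.replicate l (U j)) J).toNat *
        (r i ^ k * r j ^ l) := by
  rw [X_pow_eq_monomial, X_pow_eq_monomial, monomial_mul, one_mul, LL_monomial]
  unfold ww
  rw [Finsupp.toMultiset_add, Finsupp.toMultiset_single, Finsupp.toMultiset_single,
    Multiset.nsmul_singleton, Multiset.nsmul_singleton, Multiset.map_add, Multiset.map_add,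
    Multiset.map_replicate, Multiset.map_replicate, Multiset.map_replicate,
    Multiset.map_replicate, Multiset.prod_add, Multiset.prod_replicate, Multiset.prod_replicate]

omit [IsLocalRing R] in
lemma LL_natCast_mul (w : (σ →₀ ℕ) → ℝ) (c : ℕ) (p : MvPolynomial σ ℝ) :
    LL w ((c : MvPolynomial σ ℝ) * p) = c * LL w p := by
  rw [← nsmul_eq_mul, map_nsmul, nsmul_eq_mul]

omit [IsLocalRing R] in
lemma LL_PP (U : σ → Submodule K R) (r : σ → ℝ) (J : Ideal R) (i m : σ) (s : ℕ) (hi : r i = (s : ℝ)⁻¹)
    (hm : r m = 1) (n : ℕ) : LL (ww U r J) (PP (X i) (X m) n) = Phi (U m) n (U i) J s := by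
  rw [PP_closed, map_sum]
  unfold Phi
  refine Finset.sum_congr rfl fun k hk => ?_
  rw [LL_natCast_mul, LL_pow_mul_pow, hi, hm, one_pow, mul_one, inv_pow, div_eq_mul_inv]

omit [IsLocalRing R] in
lemma ww_single_add (U : σ → Submodule K R) (r : σ → ℝ) (J : Ideal R) (i : σ) (e : σ →₀ ℕ) :
    ww U r J (Finsupp.single i 1 + e) =
      (EM (U i ::ₘ ((Finsupp.toMultiset e).map U)) J).toNat *
        (r i * ((Finsupp.toMultiset e).map r).prod) := by
  unfold ww
  rw [Finsupp.toMultiset_add, Finsupp.toMultiset_single, one_nsmul, Multiset.singleton_add,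
    Multiset.map_cons, Multiset.map_cons, Multiset.prod_cons]

end Func

lemma toNat_le_of_le {a b c : ℕ∞} {s : ℕ} (hb : b ≠ ⊤) (hc : c ≠ ⊤) (h : a ≤ s * b + c) :
    (a.toNat : ℝ) ≤ s * b.toNat + c.toNat := by
  obtain ⟨b, rfl⟩ := ENat.ne_top_iff_exists.mp hb
  obtain ⟨c, rfl⟩ := ENat.ne_top_iff_exists.mp hc
  have ha : a ≠ ⊤ := ne_top_of_le_ne_top (by exact_mod_cast ENat.natCast_ne_top (s * b + c)) h
  obtain ⟨a, rfl⟩ := ENat.ne_top_iff_exists.mp ha
  simp only [ENat.toNat_natCast]
  exact_mod_cast h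

lemma toNat_mono_real {a b : ℕ∞} (hb : b ≠ ⊤) (h : a ≤ b) : (a.toNat : ℝ) ≤ b.toNat := by
  exact_mod_cast ENat.toNat_le_toNat h hb

open MvPolynomial in
/-- The inductive step. -/
lemma Good.main_step [Infinite K] (hV : Good V) {N : ℕ} {J : Ideal R} {x : R} (hx : x ∈ V)
    (hd : Dim V (J ⊔ span {x}) N)
    {I : ℕ → Ideal R} (hclo : ∀ j, ∀ y ∈ V, ∀ f ∈ I (j + 1), y * f ∈ I j)
    {m : ℕ} (hm : ∀ j, maximalIdeal R ^ m ≤ I j) {T : ℕ} (hT : I T = ⊤) {s : ℕ} (hs : 0 < s) :
    Phi V (N + 1) (Pw K (I 0) s) J s ≤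
      (N + 1) * ∑ j ∈ Finset.range T, Phi V N (Pw K (I j) s) (J ⊔ span {x}) s := by
  set J' := J ⊔ span {x} with hJ'
  set U : Option ℕ → Submodule K R := fun o => o.elim V (fun j => Pw K (I j) s) with hU
  set r : Option ℕ → ℝ := fun o => o.elim 1 (fun _ => (s : ℝ)⁻¹) with hr
  have hsR : (0 : ℝ) < s := by exact_mod_cast hs
  have hUn : U none = V := rfl
  have hUs : ∀ j, U (some j) = Pw K (I j) s := fun j => rfl
  have hrn : r none = 1 := rfl
  have hrs : ∀ j, r (some j) = (s : ℝ)⁻¹ := fun j => rfl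
  have hr0 : ∀ o, 0 ≤ r o := by
    intro o
    cases o with
    | none => rw [hrn]; norm_num
    | some j => rw [hrs]; positivity
  have hUt : ∀ o, ∃ t : ℕ, ∀ x ∈ V, x ^ t ∈ U o := by
    intro o
    cases o with
    | none => exact ⟨1, fun x hx => by rw [pow_one]; exact hx⟩
    | some j =>
      refine ⟨m * s, fun x hx => ?_⟩
      rw [hUs, mem_Pw, pow_mul]
      exact Ideal.pow_mem_pow (hm j (Ideal.pow_mem_pow (hV.sub_max hx) m)) s
  have hfin : ∀ (M : Multiset (Option ℕ)), Multiset.card M = N → EM (M.map U) J' ≠ ⊤ := by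
    intro M hM
    refine hV.EM_ne_top _ _ ?_ ?_
    · intro W hW
      obtain ⟨o, -, rfl⟩ := Multiset.mem_map.mp hW
      exact hUt o
    · rw [Multiset.card_map, hM]; exact hd
  have hslot : ∀ j, ∀ y ∈ V, ∀ g ∈ Pw K (I (j + 1)) s, y ^ s * g ∈ Pw K (I j) s := by
    intro j y hy g hg
    rw [mem_Pw] at hg ⊢
    have h1 : span {y ^ s} * I (j + 1) ^ s ≤ I j ^ s := by
      rw [← Ideal.span_singleton_pow, ← mul_pow]
      apply Ideal.pow_right_mono
      rw [Ideal.mul_le]
      intro a ha b hb
      obtain ⟨c, rfl⟩ := Ideal.mem_span_singleton'.mp ha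
      rw [mul_assoc]
      exact Ideal.mul_mem_left _ _ (hclo j y hy b hb)
    exact h1 (Ideal.mul_mem_mul (Ideal.mem_span_singleton_self _) hg)
  -- the first inequality
  have h1 : (EM (Multiset.replicate (N + 1) (U (some 0))) J).toNat / (s : ℝ) ^ (N + 1) ≤
      ∑ j ∈ Finset.range T, LL (ww U r J') (hh (X (some j)) (X (some (j + 1))) N) := by
    have h2 := hV.chain (A := fun j => U (some j)) (x := x) (s := s)
      (fun j g hg => hslot j x hx g hg) J (N + 1) T
    have h3 : EM (Multiset.replicate (N + 1) (U (some T))) J = 0 := by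
      apply le_antisymm _ bot_le
      rw [Multiset.replicate_succ]
      have h4 : (1 : R) ∈ U (some T) := by
        rw [hUs, mem_Pw, hT, Ideal.top_pow]; trivial
      refine (EM_cons_le h4).trans ?_
      rw [Ideal.span_singleton_one, sup_top_eq, EM_top]
      exact le_rfl
    rw [h3, add_zero] at h2
    have h5 : ∀ j k, k ∈ Finset.range (N + 1) →
        EM (Multiset.replicate (N + 1 - 1 - k) (U (some j)) + Multiset.replicate k (U (some (j + 1))))
          J' = ((EM (Multiset.replicate (N - k) (U (some j)) +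
            Multiset.replicate k (U (some (j + 1)))) J').toNat : ℕ∞) := by
      intro j k hk
      rw [Nat.add_sub_cancel, ENat.natCast_toNat]
      have := hfin (Multiset.replicate (N - k) (some j) + Multiset.replicate k (some (j + 1))) (by
        rw [Multiset.card_add, Multiset.card_replicate, Multiset.card_replicate]
        have := Finset.mem_range.mp hk
        omega)
      rwa [Multiset.map_add, Multiset.map_replicate, Multiset.map_replicate] at this
    rw [Finset.sum_congr rfl (fun j _ => Finset.sum_congr rfl (h5 j))] at h2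
    have h6 : EM (Multiset.replicate (N + 1) (U (some 0))) J ≤
        ((s * ∑ j ∈ Finset.range T, ∑ k ∈ Finset.range (N + 1),
          (EM (Multiset.replicate (N - k) (U (some j)) +
            Multiset.replicate k (U (some (j + 1)))) J').toNat : ℕ) : ℕ∞) := by
      rw [Nat.cast_mul, Nat.cast_sum]
      simp only [Nat.cast_sum]
      exact h2
    have h7 := ENat.toNat_le_of_le_natCast h6
    have h8 : ((EM (Multiset.replicate (N + 1) (U (some 0))) J).toNat : ℝ) ≤
        s * ∑ j ∈ Finset.range T, ∑ k ∈ Finset.range (N + 1),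
          ((EM (Multiset.replicate (N - k) (U (some j)) +
            Multiset.replicate k (U (some (j + 1)))) J').toNat : ℝ) := by
      exact_mod_cast h7
    rw [div_le_iff₀ (by positivity)]
    refine h8.trans (le_of_eq ?_)
    rw [Finset.sum_mul, Finset.mul_sum]
    refine Finset.sum_congr rfl fun j _ => ?_
    rw [hh_closed, map_sum, Finset.sum_mul, Finset.mul_sum]
    refine Finset.sum_congr rfl fun k hk => ?_
    rw [LL_pow_mul_pow, hrs, hrs, ← pow_add, Nat.sub_add_cancel (by
      have := Finset.mem_range.mp hk; omega), mul_assoc, pow_succ, inv_pow, ← mul_assoc _ _ (s : ℝ),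
      inv_mul_cancel₀ (by positivity), one_mul, mul_comm]
  -- the key inequality
  have h2 : ∀ j, LL (ww U r J') (hh (X (some j)) (X (some (j + 1))) N) ≤
      (N + 1) * LL (ww U r J') (PP (X (some j)) (X none) N) +
        (LL (ww U r J') (TT (X (some (j + 1))) (X none) (N + 1)) -
          LL (ww U r J') (TT (X (some j)) (X none) (N + 1))) := by
    intro j
    have h3 := key (w := ww U r J') (a := some j) (b := some (j + 1)) (m := none) (n := N) (by
      intro e he
      rw [ww_single_add, ww_single_add, ww_single_add, hrs, hrs, hrn, one_mul]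
      have hP : 0 ≤ ((Finsupp.toMultiset e).map r).prod := by
        apply Multiset.prod_nonneg
        intro a ha
        obtain ⟨o, -, rfl⟩ := Multiset.mem_map.mp ha
        exact hr0 o
      have hc : ∀ o, EM (U o ::ₘ ((Finsupp.toMultiset e).map U)) J' ≠ ⊤ := by
        intro o
        have := hfin (o ::ₘ Finsupp.toMultiset e) (by
          rw [Multiset.card_cons, Finsupp.card_toMultiset]
          exact he)
        rwa [Multiset.map_cons] at this
      obtain ⟨y, hy, hy2⟩ := exists_EM_cons V ((Finsupp.toMultiset e).map U) J'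
      have h4 := hV.EM_slot (hslot j y hy) ((Finsupp.toMultiset e).map U) J'
      rw [← hy2] at h4
      have h5 := toNat_le_of_le (hc none) (hc (some (j + 1))) h4
      rw [hUn] at h5 ⊢
      have h6 : ((EM (U (some j) ::ₘ ((Finsupp.toMultiset e).map U)) J').toNat : ℝ) * (s : ℝ)⁻¹ ≤
          ((EM (V ::ₘ ((Finsupp.toMultiset e).map U)) J').toNat : ℝ) +
            ((EM (U (some (j + 1)) ::ₘ ((Finsupp.toMultiset e).map U)) J').toNat : ℝ) *
              (s : ℝ)⁻¹ := by
        calc _ ≤ (s * ((EM (V ::ₘ ((Finsupp.toMultiset e).map U)) J').toNat : ℝ) +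
            ((EM (U (some (j + 1)) ::ₘ ((Finsupp.toMultiset e).map U)) J').toNat : ℝ)) *
              (s : ℝ)⁻¹ := by
              gcongr
              exact h5
          _ = _ := by field_simp
      nlinarith [mul_le_mul_of_nonneg_right h6 hP])
    have h4 : LL (ww U r J') (TT (X (some j)) (X none) (N + 1)) =
        LL (ww U r J') (X (some j) * TT (X (some j)) (X none) N) +
          N * LL (ww U r J') (PP (X (some j)) (X none) N) := by
      rw [TT_succ, map_add, LL_natCast_mul]
    linarith
  have h3 : LL (ww U r J') (TT (X (some T)) (X none) (N + 1)) = 0 := by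
    rw [TT_closed, map_sum]
    refine Finset.sum_eq_zero fun k hk => ?_
    rw [LL_natCast_mul, LL_pow_mul_pow]
    cases k with
    | zero => rw [cc_zero_right _ (Nat.succ_ne_zero N)]; simp
    | succ k =>
      have h4 : EM (Multiset.replicate (k + 1) (U (some T)) +
          Multiset.replicate (N + 1 - 1 - (k + 1)) (U none)) J' = 0 := by
        apply le_antisymm _ bot_le
        rw [Multiset.replicate_succ, Multiset.cons_add]
        have h4 : (1 : R) ∈ U (some T) := by
          rw [hUs, mem_Pw, hT, Ideal.top_pow]; trivial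
        refine (EM_cons_le h4).trans ?_
        rw [Ideal.span_singleton_one, sup_top_eq, EM_top]
        exact le_rfl
      rw [h4]
      simp
  have h4 : Phi V (N + 1) (Pw K (I 0) s) J s ≤
      (EM (Multiset.replicate (N + 1) (U (some 0))) J).toNat / (s : ℝ) ^ (N + 1) +
        LL (ww U r J') (TT (X (some 0)) (X none) (N + 1)) := by
    unfold Phi
    rw [Finset.sum_range_succ, cc_self, Nat.sub_self, Multiset.replicate_zero, add_zero,
      Nat.cast_one, one_mul, ← hUs, add_comm]
    gcongr
    rw [TT_closed, map_sum]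
    refine Finset.sum_le_sum fun k hk => ?_
    rw [LL_natCast_mul, LL_pow_mul_pow, hrn, hrs, one_pow, mul_one, inv_pow, ← div_eq_mul_inv]
    gcongr
    · have := hfin (Multiset.replicate k (some 0) + Multiset.replicate (N + 1 - 1 - k) none) (by
        rw [Multiset.card_add, Multiset.card_replicate, Multiset.card_replicate]
        have := Finset.mem_range.mp hk
        omega)
      rwa [Multiset.map_add, Multiset.map_replicate, Multiset.map_replicate] at this
    · have e1 : N + 1 - k = (N + 1 - 1 - k) + 1 := by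
        have := Finset.mem_range.mp hk
        omega
      rw [e1, Multiset.replicate_succ, Multiset.add_cons, hUn]
      exact EM_cons_le hx
  have h5 : ∀ j, LL (ww U r J') (PP (X (some j)) (X none) N) = Phi V N (Pw K (I j) s) J' s :=
    fun j => LL_PP U r J' (some j) none s (hrs j) hrn N
  have h6 := Finset.sum_le_sum (fun j (_ : j ∈ Finset.range T) => h2 j)
  rw [Finset.sum_add_distrib, Finset.sum_range_sub (fun j =>
    LL (ww U r J') (TT (X (some j)) (X none) (N + 1))), h3, ← Finset.mul_sum] at h6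
  simp only [h5] at h6
  linarith

lemma Good.Phi_mono [Infinite K] (hV : Good V) {n : ℕ} {J : Ideal R} (hd : Dim V J n)
    {A B : Submodule K R} (hB : ∃ t : ℕ, ∀ x ∈ V, x ^ t ∈ B) (h : ∀ f ∈ B, ∃ g ∈ A, f - g ∈ J)
    (s : ℕ) : Phi V n A J s ≤ Phi V n B J s := by
  unfold Phi
  refine Finset.sum_le_sum fun k hk => ?_
  have h1 : EM (Multiset.replicate k B + Multiset.replicate (n - k) V) J ≠ ⊤ := by
    refine hV.EM_ne_top _ _ ?_ ?_
    · intro U hU
      rcases Multiset.mem_add.mp hU with hU | hU
      · rw [Multiset.eq_of_mem_replicate hU]; exact hB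
      · rw [Multiset.eq_of_mem_replicate hU]; exact ⟨1, fun x hx => by rwa [pow_one]⟩
    · rw [Multiset.card_add, Multiset.card_replicate, Multiset.card_replicate,
        Nat.add_sub_cancel' (by have := Finset.mem_range.mp hk; omega)]
      exact hd
  have h2 := toNat_mono_real h1 (EM_mono_add h k _)
  gcongr

omit [IsLocalRing R] in
lemma Phi_shift (n : ℕ) (A : Submodule K R) (J : Ideal R) {s : ℕ} (hs : 0 < s) (c : ℕ) :
    Phi V n A J s ≤ (((s + c : ℕ) : ℝ) / s) ^ n * Phi V n A J (s + c) := by
  unfold Phi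
  rw [Finset.mul_sum]
  refine Finset.sum_le_sum fun k hk => ?_
  have hsR : (0 : ℝ) < s := by exact_mod_cast hs
  have hscR : (0 : ℝ) < ((s + c : ℕ) : ℝ) := by exact_mod_cast (by omega : 0 < s + c)
  have h1 : (1 : ℝ) ≤ ((s + c : ℕ) : ℝ) / s := by
    rw [one_le_div hsR]
    exact_mod_cast (by omega : s ≤ s + c)
  have h2 : (((s + c : ℕ) : ℝ) / s) ^ k ≤ (((s + c : ℕ) : ℝ) / s) ^ n :=
    pow_le_pow_right₀ h1 (by have := Finset.mem_range.mp hk; omega)
  set a : ℝ := ((EM (Multiset.replicate k A + Multiset.replicate (n - k) V) J).toNat : ℝ) with ha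
  have ha0 : 0 ≤ a := Nat.cast_nonneg _
  calc (cc n k : ℝ) * (a / (s : ℝ) ^ k)
      = (((s + c : ℕ) : ℝ) / s) ^ k * ((cc n k : ℝ) * (a / ((s + c : ℕ) : ℝ) ^ k)) := by
        rw [div_pow]
        field_simp
    _ ≤ _ := by
        gcongr

omit [IsLocalRing R] in
lemma sup_pow_le (A B : Ideal R) (s : ℕ) : (A ⊔ B) ^ s ≤ A ^ s ⊔ B := by
  induction s with
  | zero => simp
  | succ s ih =>
    rw [pow_succ]
    refine (Ideal.mul_mono_left ih).trans ?_
    rw [Ideal.sup_mul, Ideal.mul_sup, ← pow_succ]
    refine sup_le (sup_le le_sup_left ?_) ?_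
    · exact Ideal.mul_le_right.trans le_sup_right
    · exact Ideal.mul_le_left.trans le_sup_right

/-- The main inequality. -/
theorem Good.main [Infinite K] (hV : Good V) (n : ℕ) : ∀ J : Ideal R, Dim V J n →
    ∀ I : Ideal R, J ≤ I → I ≠ ⊤ → lam K I ≠ ⊤ → ∀ ε : ℝ, 0 < ε →
    ∀ᶠ s : ℕ in Filter.atTop,
      Phi V n (Pw K I s) J s ≤ n.factorial * ((lam K I).toNat : ℝ) + ε := by
  induction n with
  | zero =>
    intro J hJ I hJI hI hfin ε hε
    have h1 := hJ.zero hV
    have h2 : I = maximalIdeal R :=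
      ((maximalIdeal.isMaximal R).eq_of_le hI (h1.trans hJI)).symm
    have h3 : J = maximalIdeal R := le_antisymm (h2 ▸ hJI) h1
    refine Filter.Eventually.of_forall fun s => ?_
    unfold Phi
    rw [h2, h3]
    simp only [zero_add, Finset.range_one, Finset.sum_singleton, Multiset.replicate_zero,
      Nat.sub_self, pow_zero, div_one, EM_zero, hV.lam_max, cc_self]
    simp
    exact hε.le
  | succ N ih =>
    intro J hJ I₀ hJI₀ hI₀ hfin₀ ε hε
    obtain ⟨I, hE, hmax⟩ := exists_max hfin₀
    have hfin : lam K I ≠ ⊤ := ne_top_of_le_ne_top hfin₀ (lam_anti hE.1)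
    have hJI : J ≤ I := hJI₀.trans hE.1
    have hI : I ≠ ⊤ := by
      rintro rfl
      obtain ⟨-, c, hc⟩ := hE
      have := hc 1
      rw [Ideal.top_pow, pow_one] at this
      exact hI₀ (top_le_iff.mp this)
    -- a general element
    obtain ⟨x, hx, hmin, hxJ⟩ : ∃ x ∈ V, (∀ y ∈ V, lam K (I ⊔ span {x}) ≤ lam K (I ⊔ span {y})) ∧
        (x ∈ J → V ≤ J.restrictScalars K) := by
      obtain ⟨x₁, hx₁⟩ := ENat.exists_eq_iInf (fun f : V => lam K (I ⊔ span {(f : R)}))
      have hmin₁ : ∀ y ∈ V, lam K (I ⊔ span {(x₁ : R)}) ≤ lam K (I ⊔ span {y}) := by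
        intro y hy
        have := iInf_le (fun f : V => lam K (I ⊔ span {(f : R)})) ⟨y, hy⟩
        rwa [← hx₁] at this
      by_cases hVJ : V ≤ J.restrictScalars K
      · exact ⟨x₁, x₁.2, hmin₁, fun _ => hVJ⟩
      by_cases hx₁J : (x₁ : R) ∈ J
      · obtain ⟨y, hy, hyJ⟩ := SetLike.not_le_iff_exists.mp hVJ
        refine ⟨y, hy, fun z hz => ?_, fun h => absurd h hyJ⟩
        refine le_trans ?_ (hmin₁ z hz)
        have : I ⊔ span {(x₁ : R)} = I := by
          rw [sup_eq_left, span_singleton_le_iff_mem]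
          exact hJI hx₁J
        rw [this]
        exact lam_anti le_sup_left
      · exact ⟨x₁, x₁.2, hmin₁, fun h => absurd h hx₁J⟩
    have hd : Dim V (J ⊔ span {x}) N := by
      by_cases h : x ∈ J
      · exact Dim.anti hV le_sup_left (Dim.le (hxJ h) _)
      · exact hJ.succ hV hx h
    have hxm := hV.sub_max hx
    obtain ⟨m, hm⟩ := exists_pow_le hfin
    set Ij : ℕ → Ideal R := fun j => col I (x ^ j) with hIj
    have hI0 : Ij 0 = I := by
      ext r
      rw [hIj]
      simp
    have hIsucc : ∀ j, col (Ij j) x = Ij (j + 1) := by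
      intro j
      ext r
      simp only [hIj, mem_col]
      rw [← mul_assoc, ← pow_succ]
    have hclo : ∀ j, ∀ y ∈ V, ∀ f ∈ Ij (j + 1), y * f ∈ Ij j := by
      intro j y hy f hf
      simp only [hIj, mem_col] at hf ⊢
      have h1 : x * (x ^ j * f) ∈ I := by
        rw [← mul_assoc, ← pow_succ']
        exact hf
      have h2 := hV.closure_step hfin hI hE hmax hx hmin h1 hy
      rw [mul_left_comm] at h2
      exact h2
    have hmj : ∀ j, maximalIdeal R ^ m ≤ Ij j := fun j => hm.trans (le_col _ _)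
    have hex : ∃ T, Ij T = ⊤ := by
      refine ⟨m, ?_⟩
      rw [Ideal.eq_top_iff_one]
      simp only [hIj, mem_col, mul_one]
      exact hm (Ideal.pow_mem_pow hxm m)
    classical
    set T := Nat.find hex with hTdef
    have hT : Ij T = ⊤ := Nat.find_spec hex
    have hTmin : ∀ j < T, Ij j ≠ ⊤ := fun j hj => Nat.find_min hex hj
    have hlam : ∀ t, lam K I = ∑ j ∈ Finset.range t, lam K (Ij j ⊔ span {x}) + lam K (Ij t) := by
      intro t
      induction t with
      | zero => rw [Finset.sum_range_zero, zero_add, hI0]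
      | succ t iht =>
        rw [iht, Finset.sum_range_succ, add_assoc, lam_eq_add (Ij t) x, hIsucc]
    have hlamT := hlam T
    rw [hT, lam_top, add_zero] at hlamT
    have hfinj : ∀ j, lam K (Ij j ⊔ span {x}) ≠ ⊤ := fun j =>
      ne_top_of_le_ne_top hfin (lam_anti ((le_col _ _).trans le_sup_left))
    have hlamR : ((lam K I).toNat : ℝ) =
        ∑ j ∈ Finset.range T, ((lam K (Ij j ⊔ span {x})).toNat : ℝ) := by
      have : (lam K I).toNat = ∑ j ∈ Finset.range T, (lam K (Ij j ⊔ span {x})).toNat := by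
        rw [hlamT, ENat.toNat_sum]
        exact fun j _ => hfinj j
      rw [this, Nat.cast_sum]
    set ε' : ℝ := ε / (2 * ((N + 1) * (T + 1))) with hε'
    have hε'0 : 0 < ε' := by positivity
    have hev : ∀ᶠ s : ℕ in Filter.atTop, ∀ j ∈ Finset.range T,
        Phi V N (Pw K (Ij j ⊔ span {x}) s) (J ⊔ span {x}) s ≤
          N.factorial * ((lam K (Ij j ⊔ span {x})).toNat : ℝ) + ε' := by
      rw [Filter.eventually_all_finset]
      intro j hj
      refine ih (J ⊔ span {x}) hd (Ij j ⊔ span {x}) ?_ ?_ (hfinj j) ε' hε'0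
      · exact sup_le_sup_right (hJI.trans (le_col _ _)) _
      · intro h
        have h1 : Ij j ⊔ span {x} ≤ maximalIdeal R := by
          refine sup_le (le_maximalIdeal (hTmin j (Finset.mem_range.mp hj))) ?_
          rwa [span_singleton_le_iff_mem]
        rw [h, top_le_iff] at h1
        exact (maximalIdeal.isMaximal R).ne_top h1
    -- the bound for `I`
    have hbd : ∀ᶠ s : ℕ in Filter.atTop, Phi V (N + 1) (Pw K I s) J s ≤
        (N + 1).factorial * ((lam K I).toNat : ℝ) + ε / 2 := by
      filter_upwards [hev, Filter.eventually_gt_atTop 0] with s hs hs0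
      have h1 := hV.main_step hx (J := J) hd hclo hmj hT hs0
      rw [hI0] at h1
      refine h1.trans ?_
      have h2 : ∑ j ∈ Finset.range T, Phi V N (Pw K (Ij j) s) (J ⊔ span {x}) s ≤
          ∑ j ∈ Finset.range T, (N.factorial * ((lam K (Ij j ⊔ span {x})).toNat : ℝ) + ε') := by
        refine Finset.sum_le_sum fun j hj => ?_
        refine (hV.Phi_mono hd ?_ ?_ s).trans (hs j hj)
        · refine ⟨m * s, fun y hy => ?_⟩
          rw [mem_Pw, pow_mul]
          exact Ideal.pow_mem_pow (((hmj j).trans le_sup_left)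
            (Ideal.pow_mem_pow (hV.sub_max hy) m)) s
        · intro f hf
          rw [mem_Pw] at hf
          have h3 : (Ij j ⊔ span {x}) ^ s ≤ Ij j ^ s ⊔ span {x} := sup_pow_le _ _ _
          obtain ⟨g, hg, z, hz, rfl⟩ := Submodule.mem_sup.mp (h3 hf)
          refine ⟨g, hg, ?_⟩
          rw [add_sub_cancel_left]
          exact Ideal.mem_sup_right hz
      rw [Finset.sum_add_distrib, ← Finset.mul_sum, ← hlamR, Finset.sum_const, Finset.card_range,
        nsmul_eq_mul] at h2
      have h3 : (N + 1 : ℝ) * (T * ε') ≤ ε / 2 := by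
        rw [hε']
        rw [mul_div_assoc', mul_div_assoc', div_le_div_iff₀ (by positivity) (by positivity)]
        nlinarith [mul_pos hε (by positivity : (0 : ℝ) < N + 1)]
      calc (N + 1 : ℝ) * ∑ j ∈ Finset.range T, Phi V N (Pw K (Ij j) s) (J ⊔ span {x}) s
          ≤ (N + 1) * (N.factorial * ((lam K I).toNat : ℝ) + T * ε') := by gcongr
        _ = (N + 1).factorial * ((lam K I).toNat : ℝ) + (N + 1) * (T * ε') := by
          rw [Nat.factorial_succ]; push_cast; ring
        _ ≤ _ := by linarith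
    -- back to `I₀`
    obtain ⟨hII, c, hc⟩ := hE
    have h1 : ∀ᶠ s : ℕ in Filter.atTop, Phi V (N + 1) (Pw K I (s + c)) J (s + c) ≤
        (N + 1).factorial * ((lam K I).toNat : ℝ) + ε / 2 :=
      (Filter.tendsto_add_atTop_nat c).eventually hbd
    set M : ℝ := (N + 1).factorial * ((lam K I).toNat : ℝ) + ε / 2 with hM
    have hM0 : 0 ≤ M := by positivity
    have h2 : Filter.Tendsto (fun s : ℕ => (((s + c : ℕ) : ℝ) / s) ^ (N + 1) * M) Filter.atTop
        (nhds M) := by
      have h3 : Filter.Tendsto (fun s : ℕ => ((s + c : ℕ) : ℝ) / s) Filter.atTop (nhds 1) := by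
        have h4 : Filter.Tendsto (fun s : ℕ => 1 + (c : ℝ) / s) Filter.atTop (nhds (1 + 0)) :=
          tendsto_const_nhds.add (tendsto_const_div_atTop_nhds_zero_nat _)
        rw [add_zero] at h4
        refine h4.congr' ?_
        filter_upwards [Filter.eventually_gt_atTop 0] with s hs
        have : (0 : ℝ) < s := by exact_mod_cast hs
        push_cast
        field_simp
      have h5 := (h3.pow (N + 1)).mul_const M
      rwa [one_pow, one_mul] at h5
    have h3 : M < (N + 1).factorial * ((lam K I₀).toNat : ℝ) + ε := by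
      have h4 := toNat_mono_real hfin₀ (lam_anti (K := K) hII)
      have h5 : ((N + 1).factorial : ℝ) * ((lam K I).toNat : ℝ) ≤
          (N + 1).factorial * ((lam K I₀).toNat : ℝ) := by gcongr
      linarith
    filter_upwards [h1, h2.eventually_lt_const h3, Filter.eventually_gt_atTop 0] with s hs1 hs2 hs0
    have h6 : Phi V (N + 1) (Pw K I₀ s) J s ≤ Phi V (N + 1) (Pw K I (s + c)) J s := by
      refine hV.Phi_mono hJ ?_ ?_ s
      · refine ⟨m * (s + c), fun y hy => ?_⟩
        rw [mem_Pw, pow_mul]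
        exact Ideal.pow_mem_pow (hm (Ideal.pow_mem_pow (hV.sub_max hy) m)) _
      · intro f hf
        refine ⟨f, hc s hf, ?_⟩
        rw [sub_self]
        exact zero_mem _
    refine h6.trans ((Phi_shift _ _ _ hs0 c).trans (le_trans ?_ hs2.le))
    gcongr

end Pool.Agent.L0h92.Lech
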