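import Pool.Agent.L0h92.Lech.Semi
import Pool.Agent.L0h92.Lech.Main

/-!
# Formal power series
-/

set_option autoImplicit false

namespace Pool.Agent.L0h92.Lech

open Module Ideal IsLocalRing

variable {k : Type*} [Field k] {n : ℕ}

lemma mem_span_X {f : MvPowerSeries (Fin n) k} (hf : MvPowerSeries.constantCoeff f = 0) :
    f ∈ Ideal.span (Set.range (MvPowerSeries.X : Fin n → MvPowerSeries (Fin n) k)) := by
  classical
  set g : Fin n → MvPowerSeries (Fin n) k := fun t e =>
    if ∀ j < t, e j = 0 then MvPowerSeries.coeff (e + Finsupp.single t 1) f else 0 with hg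
  have hgc : ∀ t e, MvPowerSeries.coeff e (g t) =
    if ∀ j < t, e j = 0 then MvPowerSeries.coeff (e + Finsupp.single t 1) f else 0 :=
    fun t e => rfl
  have h : f = ∑ t, g t * MvPowerSeries.X t := by
    ext e
    rw [map_sum]
    have h1 : ∀ t, MvPowerSeries.coeff e (g t * MvPowerSeries.X t) =
        if Finsupp.single t 1 ≤ e then MvPowerSeries.coeff (e - Finsupp.single t 1) (g t)
        else 0 := by
      intro t
      rw [MvPowerSeries.X_def, MvPowerSeries.coeff_mul_monomial, mul_one]
    simp only [h1, hgc]
    by_cases he : e = 0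
    · subst he
      rw [MvPowerSeries.coeff_zero_eq_constantCoeff_apply, hf]
      symm
      refine Finset.sum_eq_zero fun t _ => ?_
      rw [if_neg]
      rw [Finsupp.single_le_iff]
      simp
    · have hne : e.support.Nonempty := Finsupp.support_nonempty_iff.mpr he
      set t₀ := e.support.min' hne with ht₀
      have h2 : e t₀ ≠ 0 := Finsupp.mem_support_iff.mp (Finset.min'_mem _ hne)
      have h3 : ∀ j < t₀, e j = 0 := by
        intro j hj
        by_contra h
        exact absurd (Finset.min'_le _ _ (Finsupp.mem_support_iff.mpr h)) (not_le.mpr hj)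
      have hle : Finsupp.single t₀ 1 ≤ e := by
        rw [Finsupp.single_le_iff]
        omega
      rw [Finset.sum_eq_single t₀]
      · rw [if_pos hle, if_pos, tsub_add_cancel_of_le hle]
        intro j hj
        rw [Finsupp.tsub_apply, h3 j hj, zero_tsub]
      · intro t _ ht
        by_cases h4 : Finsupp.single t 1 ≤ e
        · rw [if_pos h4, if_neg]
          intro h5
          rw [Finsupp.single_le_iff] at h4
          have h6 : t₀ < t := by
            rcases lt_trichotomy t t₀ with h7 | h7 | h7
            · have := h3 t h7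
              omega
            · exact absurd h7 ht
            · exact h7
          have h7 := h5 t₀ h6
          rw [Finsupp.tsub_apply, Finsupp.single_eq_of_ne h6.ne] at h7
          omega
        · rw [if_neg h4]
      · intro h
        exact absurd (Finset.mem_univ _) h
  rw [h]
  refine sum_mem fun t _ => Ideal.mul_mem_left _ _ (Ideal.subset_span ⟨t, rfl⟩)

lemma max_eq : maximalIdeal (MvPowerSeries (Fin n) k) =
    Ideal.span (Set.range (MvPowerSeries.X : Fin n → MvPowerSeries (Fin n) k)) := by
  apply le_antisymm
  · intro f hf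
    apply mem_span_X
    rw [mem_maximalIdeal, mem_nonunits_iff, MvPowerSeries.isUnit_iff_constantCoeff] at hf
    by_contra h
    exact hf (isUnit_iff_ne_zero.mpr h)
  · rw [Ideal.span_le]
    rintro _ ⟨t, rfl⟩
    rw [SetLike.mem_coe, mem_maximalIdeal, mem_nonunits_iff,
      MvPowerSeries.isUnit_iff_constantCoeff]
    simp

variable (k n) in
/-- the space of linear forms -/
def VV : Submodule k (MvPowerSeries (Fin n) k) :=
  Submodule.span k (Set.range (MvPowerSeries.X : Fin n → MvPowerSeries (Fin n) k))

lemma good_VV : Good (VV k n) where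
  span_eq := by
    rw [max_eq]
    apply le_antisymm
    · rw [Ideal.span_le]
      have h : VV k n ≤ (Ideal.span (Set.range (MvPowerSeries.X :
          Fin n → MvPowerSeries (Fin n) k))).restrictScalars k := by
        unfold VV
        rw [Submodule.span_le]
        exact Ideal.subset_span
      exact h
    · apply Ideal.span_mono
      exact Submodule.subset_span
  fin := FiniteDimensional.span_of_finite k (Set.finite_range _)
  const := by
    intro r
    refine ⟨MvPowerSeries.constantCoeff r, ?_⟩
    rw [max_eq]
    apply mem_span_X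
    rw [map_sub, MvPowerSeries.algebraMap_apply]
    simp

lemma dim_VV : Dim (VV k n) ⊥ n := by
  unfold Dim
  have h1 : finrank k (VV k n) ≤ Fintype.card (Fin n) := finrank_range_le_card _
  rw [Fintype.card_fin] at h1
  omega

/-- the restriction to a line through the origin -/
lemma hasSubst_line (α : Fin n → k) :
    MvPowerSeries.HasSubst (fun t => α t • (PowerSeries.X : PowerSeries k)) := by
  refine MvPowerSeries.hasSubst_of_constantCoeff_zero fun t => ?_
  change PowerSeries.constantCoeff (α t • (PowerSeries.X : PowerSeries k)) = 0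
  rw [← PowerSeries.coeff_zero_eq_constantCoeff_apply, PowerSeries.coeff_smul]
  simp

/-- the restriction to a line through the origin -/
noncomputable def line (α : Fin n → k) : MvPowerSeries (Fin n) k →ₐ[k] PowerSeries k :=
  MvPowerSeries.substAlgHom (hasSubst_line α)

lemma line_X (α : Fin n → k) (t : Fin n) :
    line α (MvPowerSeries.X t) = α t • (PowerSeries.X : PowerSeries k) :=
  MvPowerSeries.substAlgHom_X (hasSubst_line α) t

/-- the linear functional attached to a point -/
noncomputable def ev (α : Fin n → k) : MvPowerSeries (Fin n) k →ₗ[k] k :=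
  ∑ t, α t • MvPowerSeries.coeff (Finsupp.single t 1)

lemma line_VV (α : Fin n → k) {f : MvPowerSeries (Fin n) k} (hf : f ∈ VV k n) :
    line α f = ev α f • (PowerSeries.X : PowerSeries k) := by
  classical
  unfold VV at hf
  induction hf using Submodule.span_induction with
  | mem x hx =>
    obtain ⟨t, rfl⟩ := hx
    rw [line_X]
    congr 1
    unfold ev
    rw [LinearMap.sum_apply, Finset.sum_eq_single t]
    · simp [MvPowerSeries.coeff_X]
    · intro s _ hs
      rw [LinearMap.smul_apply, MvPowerSeries.coeff_X, if_neg, smul_zero]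
      intro h
      exact hs (Finsupp.single_left_injective one_ne_zero h)
    · intro h
      exact absurd (Finset.mem_univ _) h
  | zero => simp
  | add x y _ _ h1 h2 => rw [map_add, map_add, h1, h2, add_smul]
  | smul c x _ h => rw [map_smul, map_smul, h, smul_eq_mul, mul_smul]

lemma exists_line {L : List (MvPowerSeries (Fin n) k)} (hL : L.length < n) :
    ∃ α : Fin n → k, α ≠ 0 ∧ ∀ f ∈ L, ev α f = 0 := by
  set Ψ : (Fin n → k) →ₗ[k] (Fin L.length → k) :=
    { toFun := fun α j => ev α (L.get j)
      map_add' := fun a b => by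
        funext j
        simp [ev, add_mul, Finset.sum_add_distrib]
      map_smul' := fun a b => by
        funext j
        simp [ev, Finset.mul_sum, mul_assoc] } with hΨ
  have h1 : LinearMap.ker Ψ ≠ ⊥ := LinearMap.ker_ne_bot_of_finrank_lt (by simpa using hL)
  obtain ⟨α, hα, hα0⟩ := Submodule.exists_mem_ne_zero_of_ne_bot h1
  refine ⟨α, hα0, fun f hf => ?_⟩
  obtain ⟨j, rfl⟩ := List.get_of_mem hf
  exact congrFun hα j

lemma le_lam_of_line {α : Fin n → k} (hα : α ≠ 0) {s : ℕ} {D : Ideal (MvPowerSeries (Fin n) k)}
    (hD : ∀ f ∈ D, (PowerSeries.X : PowerSeries k) ^ s ∣ line α f) : (s : ℕ∞) ≤ lam k D := by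
  obtain ⟨t, ht⟩ := Function.ne_iff.mp hα
  rw [Pi.zero_apply] at ht
  set Ψ : MvPowerSeries (Fin n) k →ₗ[k] (Fin s → k) :=
    (LinearMap.pi fun j : Fin s => PowerSeries.coeff (j : ℕ)) ∘ₗ (line α).toLinearMap with hΨ
  have hΨa : ∀ f j, Ψ f j = PowerSeries.coeff (j : ℕ) (line α f) := fun f j => rfl
  have hs : Function.Surjective Ψ := by
    intro a
    refine ⟨∑ i : Fin s, (a i * (α t ^ (i : ℕ))⁻¹) • (MvPowerSeries.X t) ^ (i : ℕ), ?_⟩
    funext j
    rw [hΨa, map_sum, map_sum, Finset.sum_eq_single j]
    · rw [map_smul, map_pow, line_X, smul_pow, smul_smul, mul_assoc,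
        inv_mul_cancel₀ (pow_ne_zero _ ht), mul_one, PowerSeries.coeff_smul,
        PowerSeries.coeff_X_pow]
      simp
    · intro i _ hij
      rw [map_smul, map_pow, line_X, smul_pow, smul_smul, PowerSeries.coeff_smul,
        PowerSeries.coeff_X_pow, if_neg, smul_zero]
      intro h
      exact hij (Fin.ext h.symm)
    · intro h
      exact absurd (Finset.mem_univ _) h
  have hker : D.restrictScalars k ≤ LinearMap.ker Ψ := by
    intro f hf
    rw [LinearMap.mem_ker]
    funext j
    rw [hΨa, Pi.zero_apply]
    exact PowerSeries.X_pow_dvd_iff.mp (hD f hf) j j.2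
  have h1 : Module.length k (Fin s → k) ≤ lam k D := by
    unfold lam
    refine Module.length_le_of_surjective ((D.restrictScalars k).liftQ Ψ hker) ?_
    intro a
    obtain ⟨f, rfl⟩ := hs a
    exact ⟨Ideal.Quotient.mk D f, rfl⟩
  rw [Module.length_eq_finrank] at h1
  simpa using h1

lemma le_lam_of_list {L : List (MvPowerSeries (Fin n) k)} (hL : L.length < n)
    (hLV : ∀ f ∈ L, f ∈ VV k n) {s : ℕ} {f : MvPowerSeries (Fin n) k}
    (hf : f ∈ maximalIdeal (MvPowerSeries (Fin n) k) ^ s) :
    (s : ℕ∞) ≤ lam k (span {f} ⊔ Ideal.ofList L) := by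
  obtain ⟨α, hα, hα2⟩ := exists_line hL
  have h1 : maximalIdeal (MvPowerSeries (Fin n) k) ≤
      (span {(PowerSeries.X : PowerSeries k)}).comap (line α) := by
    rw [max_eq, Ideal.span_le]
    rintro _ ⟨t, rfl⟩
    rw [SetLike.mem_coe, Ideal.mem_comap, line_X, Algebra.smul_def]
    exact Ideal.mul_mem_left _ _ (Ideal.mem_span_singleton_self _)
  have h2 : line α f ∈ span {(PowerSeries.X : PowerSeries k) ^ s} := by
    rw [← Ideal.span_singleton_pow]
    have h3 := (Ideal.pow_right_mono h1 s).trans (Ideal.le_comap_pow _ s)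
    exact h3 hf
  have h3 : span {f} ⊔ Ideal.ofList L ≤
      (span {(PowerSeries.X : PowerSeries k) ^ s}).comap (line α) := by
    refine sup_le ?_ ?_
    · rw [span_singleton_le_iff_mem]
      exact h2
    · unfold Ideal.ofList
      rw [Ideal.span_le]
      intro g hg
      rw [SetLike.mem_coe, Ideal.mem_comap, line_VV α (hLV g hg), hα2 g hg, zero_smul]
      exact zero_mem _
  exact le_lam_of_line hα fun g hg => Ideal.mem_span_singleton.mp (h3 hg)

end Pool.Agent.L0h92.Lech
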