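import Pool.Agent.L0h92.Lech.Loc

/-!
# Semicontinuity of the colength, polynomial form
-/

set_option autoImplicit false

namespace Pool.Agent.L0h92.Lech

open Module Ideal IsLocalRing

section LinAlg

variable {K : Type*} [Field K] {ι Q : Type*} [Fintype ι] [AddCommGroup Q] [Module K Q]
  [Module.Finite K Q]

lemma exists_poly (N : ι → Q →ₗ[K] Q) (N₀ : Q →ₗ[K] Q) (c₀ : ι → K)
    (h : ∑ i, c₀ i • N i + N₀ = LinearMap.id) :
    ∃ P : MvPolynomial ι K, P ≠ 0 ∧ ∀ c : ι → K, MvPolynomial.eval c P ≠ 0 →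
      Function.Surjective (∑ i, c i • N i + N₀ : Q →ₗ[K] Q) := by
  classical
  set b := Module.finBasis K Q with hb
  set M : Matrix (Fin (finrank K Q)) (Fin (finrank K Q)) (MvPolynomial ι K) :=
    ∑ i, (MvPolynomial.X i : MvPolynomial ι K) •
      ((LinearMap.toMatrix b b (N i)).map (MvPolynomial.C : K → MvPolynomial ι K)) +
      (LinearMap.toMatrix b b N₀).map (MvPolynomial.C : K → MvPolynomial ι K) with hM
  have hev : ∀ c : ι → K, MvPolynomial.eval c M.det =
      LinearMap.det (∑ i, c i • N i + N₀ : Q →ₗ[K] Q) := by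
    intro c
    rw [RingHom.map_det, ← LinearMap.det_toMatrix b]
    congr 1
    rw [map_add, map_sum]
    ext p q
    simp [Matrix.sum_apply]
  refine ⟨M.det, ?_, ?_⟩
  · intro h0
    have h1 := hev c₀
    rw [h0, h, map_zero, LinearMap.det_id] at h1
    exact zero_ne_one h1
  · intro c hc
    rw [hev] at hc
    have h1 : IsUnit (LinearMap.det (∑ i, c i • N i + N₀ : Q →ₗ[K] Q)) := hc.isUnit
    exact (LinearEquiv.ofIsUnitDet (f := (∑ i, c i • N i + N₀ : Q →ₗ[K] Q))
      (v := b) (v' := b) (by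
        rw [LinearMap.det_toMatrix]
        exact h1)).surjective

end LinAlg

section Colength

variable {K R : Type*} [Field K] [CommRing R] [Algebra K R] {V : Submodule K R}
  {κ τ : Type*} [Fintype κ] [Fintype τ] [DecidableEq κ]

/-- `∑ c_{j t} x_t` for `j ∈ S` -/
def lin (x : τ → R) (S : Finset κ) (c : κ × τ → K) (j : κ) : R :=
  if j ∈ S then ∑ t, c (j, t) • x t else 0

/-- the ideal generated by the linear forms with index in `S` -/
def DD (x : τ → R) (S : Finset κ) (c : κ × τ → K) : Ideal R := span (Set.range (lin x S c))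

variable [IsLocalRing R]

theorem Good.exists_poly_lam (hV : Good V) (x : τ → R) (A : Ideal R) (S : Finset κ)
    (c₀ : κ × τ → K) (v : ℕ) (hv : lam K (A ⊔ DD x S c₀) ≤ v) :
    ∃ P : MvPolynomial (κ × τ) K, P ≠ 0 ∧ ∀ c, MvPolynomial.eval c P ≠ 0 →
      lam K (A ⊔ DD x S c) ≤ v := by
  classical
  set B := A ⊔ maximalIdeal R ^ (v + 1) with hB
  have hfinB : Module.Finite K (R ⧸ B) :=
    finite_of_lam (ne_top_of_le_ne_top (hV.lam_pow_ne_top (v + 1)) (lam_anti le_sup_right))
  have hfinD : ∀ D : Ideal R, Module.Finite K (R ⧸ (B ⊔ D)) := fun D =>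
    finite_of_lam (ne_top_of_le_ne_top (hV.lam_pow_ne_top (v + 1))
      (lam_anti (le_sup_right.trans le_sup_left)))
  set π : (D : Ideal R) → (R ⧸ B) →ₗ[K] (R ⧸ (B ⊔ D)) := fun D =>
    (Ideal.Quotient.factorₐ K (le_sup_left : B ≤ B ⊔ D)).toLinearMap with hπ
  have hπs : ∀ D, Function.Surjective (π D) := fun D =>
    Ideal.Quotient.factor_surjective (le_sup_left : B ≤ B ⊔ D)
  have hπmk : ∀ D r, π D (Ideal.Quotient.mk B r) = Ideal.Quotient.mk (B ⊔ D) r := fun D r => rfl
  obtain ⟨C', hC'⟩ := Submodule.exists_isCompl (LinearMap.ker (π (DD x S c₀)))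
  have hfr : finrank K C' = finrank K (R ⧸ (B ⊔ DD x S c₀)) := by
    have h1 := LinearMap.finrank_range_add_finrank_ker (π (DD x S c₀))
    have h2 := Submodule.finrank_add_eq_of_isCompl hC'
    rw [LinearMap.range_eq_top.mpr (hπs _), finrank_top] at h1
    omega
  have hdec : ∀ q : R ⧸ B, ∃ a : κ → R ⧸ B,
      q - ∑ j, Ideal.Quotient.mk B (lin x S c₀ j) * a j ∈ C' := by
    intro q
    have hq : q ∈ LinearMap.ker (π (DD x S c₀)) ⊔ C' := by rw [hC'.sup_eq_top]; trivial
    obtain ⟨w, hw, z, hz, rfl⟩ := Submodule.mem_sup.mp hq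
    obtain ⟨r, rfl⟩ := Ideal.Quotient.mk_surjective w
    rw [LinearMap.mem_ker, hπmk, Ideal.Quotient.eq_zero_iff_mem] at hw
    obtain ⟨b, hb, y, hy, rfl⟩ := Submodule.mem_sup.mp hw
    unfold DD at hy
    rw [Ideal.mem_span_range_iff_exists_fun] at hy
    obtain ⟨a, rfl⟩ := hy
    refine ⟨fun j => Ideal.Quotient.mk B (a j), ?_⟩
    have h1 : Ideal.Quotient.mk B b = 0 := Ideal.Quotient.eq_zero_iff_mem.mpr hb
    have h2 : Ideal.Quotient.mk B (b + ∑ i, a i * lin x S c₀ i) =
        ∑ j, Ideal.Quotient.mk B (lin x S c₀ j) * Ideal.Quotient.mk B (a j) := by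
      rw [map_add, h1, zero_add, map_sum]
      exact Finset.sum_congr rfl fun j _ => by rw [map_mul, mul_comm]
    rw [h2, add_sub_cancel_left]
    exact hz
  set b := Module.finBasis K (R ⧸ B) with hb
  choose a₀ ha₀ using fun p => hdec (b p)
  set σ : κ → (R ⧸ B) →ₗ[K] (R ⧸ B) := fun j => b.constr K (fun p => a₀ p j) with hσ
  set mL : R → (R ⧸ B) →ₗ[K] (R ⧸ B) := fun r => LinearMap.mulLeft K (Ideal.Quotient.mk B r)
    with hmL
  set N : κ × τ → (R ⧸ B) →ₗ[K] (R ⧸ B) := fun p =>
    if p.1 ∈ S then (mL (x p.2)) ∘ₗ (σ p.1) else 0 with hN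
  have hmk : ∀ (t : K) (y : R), Ideal.Quotient.mk B (t • y) = t • Ideal.Quotient.mk B y :=
    fun t y => map_smul (Ideal.Quotient.mkₐ K B) t y
  have hsum : ∀ (c : κ × τ → K) (q : R ⧸ B), (∑ p, c p • N p : (R ⧸ B) →ₗ[K] (R ⧸ B)) q =
      ∑ j, Ideal.Quotient.mk B (lin x S c j) * σ j q := by
    intro c q
    rw [Fintype.sum_prod_type, LinearMap.sum_apply]
    refine Finset.sum_congr rfl fun j _ => ?_
    rw [LinearMap.sum_apply]
    unfold lin
    by_cases hj : j ∈ S
    · rw [if_pos hj, map_sum, Finset.sum_mul]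
      refine Finset.sum_congr rfl fun t _ => ?_
      rw [hN]
      simp only [hj, if_true]
      rw [LinearMap.smul_apply, LinearMap.comp_apply, hmk, smul_mul_assoc]
      rfl
    · rw [if_neg hj, map_zero, zero_mul]
      refine Finset.sum_eq_zero fun t _ => ?_
      rw [hN]
      simp only [hj, if_false]
      simp
  set N₀ : (R ⧸ B) →ₗ[K] (R ⧸ B) := LinearMap.id - ∑ p, c₀ p • N p with hN₀
  have hN₀C : ∀ q, N₀ q ∈ C' := by
    intro q
    have h1 : C'.mkQ ∘ₗ N₀ = 0 := by
      refine b.ext fun p => ?_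
      rw [LinearMap.comp_apply, LinearMap.zero_apply, Submodule.mkQ_apply,
        Submodule.Quotient.mk_eq_zero, hN₀, LinearMap.sub_apply, LinearMap.id_apply, hsum]
      have h2 : ∀ j, σ j (b p) = a₀ p j := fun j => by
        rw [hσ]; exact b.constr_basis K _ p
      simp only [h2]
      exact ha₀ p
    have h2 : C'.mkQ (N₀ q) = 0 := by
      rw [← LinearMap.comp_apply, h1, LinearMap.zero_apply]
    rwa [Submodule.mkQ_apply, Submodule.Quotient.mk_eq_zero] at h2
  obtain ⟨P, hP, hPc⟩ := exists_poly N N₀ c₀ (by rw [hN₀]; abel)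
  refine ⟨P, hP, fun c hc => ?_⟩
  have hs := hPc c hc
  have hs2 : Function.Surjective ((π (DD x S c)).domRestrict C') := by
    intro y
    obtain ⟨q, rfl⟩ := hπs _ y
    obtain ⟨q', rfl⟩ := hs q
    refine ⟨⟨N₀ q', hN₀C q'⟩, ?_⟩
    rw [LinearMap.domRestrict_apply, LinearMap.add_apply, map_add, hsum, map_sum]
    have h1 : ∀ j, π (DD x S c) (Ideal.Quotient.mk B (lin x S c j) * σ j q') = 0 := by
      intro j
      obtain ⟨r, hr⟩ := Ideal.Quotient.mk_surjective (σ j q')
      rw [← hr, ← map_mul, hπmk, Ideal.Quotient.eq_zero_iff_mem]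
      refine Ideal.mem_sup_right (Ideal.mul_mem_right _ _ ?_)
      exact Ideal.subset_span ⟨j, rfl⟩
    rw [Finset.sum_eq_zero fun j _ => h1 j, zero_add]
  have h3 : lam K (B ⊔ DD x S c) ≤ v := by
    have hfD := hfinD (DD x S c)
    have hfD0 := hfinD (DD x S c₀)
    calc lam K (B ⊔ DD x S c) ≤ Module.length K C' := Module.length_le_of_surjective _ hs2
      _ = finrank K C' := Module.length_eq_finrank _ _
      _ = finrank K (R ⧸ (B ⊔ DD x S c₀)) := by rw [hfr]
      _ = lam K (B ⊔ DD x S c₀) := lam_eq_finrank.symm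
      _ ≤ lam K (A ⊔ DD x S c₀) := lam_anti (sup_le_sup_right le_sup_left _)
      _ ≤ v := hv
  have h4 := hV.pow_le v _ h3
  have h5 : maximalIdeal R ^ v ≤ A ⊔ DD x S c := by
    apply hV.nak
    refine h4.trans ?_
    rw [hB, sup_assoc, sup_assoc, sup_comm (maximalIdeal R ^ (v + 1))]
  refine le_trans (lam_anti ?_) h3
  refine sup_le (sup_le le_sup_left ?_) le_sup_right
  exact (Ideal.pow_le_pow_right (Nat.le_succ v)).trans h5

end Colength

section Powers

variable {K R : Type*} [Field K] [CommRing R] [Algebra K R]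

lemma lam_ofList_pow_le (F : List R) (u : ℕ) (J : Ideal R) :
    lam K (J ⊔ Ideal.ofList F ^ (u + 1)) ≤
      ((u + F.length).choose F.length : ℕ) * lam K (J ⊔ Ideal.ofList F) := by
  induction F generalizing u J with
  | nil =>
    simp [Ideal.ofList_nil]
  | cons f F ihF =>
    induction u with
    | zero => simp
    | succ u ihu =>
      have hcons : Ideal.ofList (f :: F) = span {f} ⊔ Ideal.ofList F := Ideal.ofList_cons _ _
      rw [lam_eq_add _ f]
      have h1 : lam K (J ⊔ Ideal.ofList (f :: F) ^ (u + 1 + 1) ⊔ span {f}) ≤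
          ((u + 1 + F.length).choose F.length : ℕ) * lam K (J ⊔ Ideal.ofList (f :: F)) := by
        have h2 := ihF (u + 1) (J ⊔ span {f})
        rw [sup_assoc J (span {f}) (Ideal.ofList F), ← hcons] at h2
        refine le_trans (lam_anti ?_) h2
        refine sup_le (sup_le (le_sup_left.trans le_sup_left) ?_) ?_
        · exact le_sup_right
        · refine (Ideal.pow_right_mono ?_ _).trans (le_sup_right.trans le_sup_left)
          rw [hcons]
          exact le_sup_right
      have h2 : lam K (col (J ⊔ Ideal.ofList (f :: F) ^ (u + 1 + 1)) f) ≤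
          ((u + F.length + 1).choose (F.length + 1) : ℕ) * lam K (J ⊔ Ideal.ofList (f :: F)) := by
        have h3 := ihu
        rw [List.length_cons] at h3
        refine le_trans (lam_anti ?_) h3
        refine sup_le (le_sup_left.trans (le_col _ _)) ?_
        intro r hr
        rw [mem_col]
        refine Ideal.mem_sup_right ?_
        rw [pow_succ' _ (u + 1)]
        refine Ideal.mul_mem_mul ?_ hr
        rw [hcons]
        exact Ideal.mem_sup_left (Ideal.mem_span_singleton_self _)
      refine (add_le_add h1 h2).trans (le_of_eq ?_)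
      rw [← add_mul, ← Nat.cast_add, List.length_cons]
      congr 2
      have e1 : u + 1 + (F.length + 1) = (u + F.length + 1) + 1 := by ring
      have e2 : u + 1 + F.length = u + F.length + 1 := by ring
      rw [e1, e2]
      exact (Nat.choose_succ_succ' _ _).symm

end Powers

end Pool.Agent.L0h92.Lech
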